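import Pool.Agent.H820.PC.Defs

/-!
Tools: alternating two-forms as bilinear maps, and their behaviour under complex combinations.
-/

set_option autoImplicit false

open Set Topology
open scoped ContDiff

noncomputable section

namespace Pool.Agent.H820.PC

theorem finrank_C3 : Module.finrank ℂ C3 = 3 := by
  have h : Module.finrank ℂ (EuclideanSpace ℂ (Fin 3)) = 3 := by simp
  exact h

section bil

variable {E : Type} [NormedAddCommGroup E] [NormedSpace ℝ E] (A : E [⋀^Fin 2]→L[ℝ] ℝ)

theorem bil_add_left (a b c : E) : A ![a + b, c] = A ![a, c] + A ![b, c] := by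
  have h := A.map_update_add ![a, c] 0 a b
  have e : ∀ x : E, Function.update ![a, c] 0 x = ![x, c] := fun x => by
    funext i
    fin_cases i <;> rfl
  rw [e, e, e] at h
  exact h

theorem bil_smul_left (r : ℝ) (a c : E) : A ![r • a, c] = r * A ![a, c] := by
  have h := A.map_update_smul ![a, c] 0 r a
  have e : ∀ x : E, Function.update ![a, c] 0 x = ![x, c] := fun x => by
    funext i
    fin_cases i <;> rfl
  rw [e, e] at h
  exact h

theorem bil_swap (a b : E) : A ![a, b] = -A ![b, a] := by
  have h := A.map_swap ![b, a] (i := 0) (j := 1) (by decide)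
  have h2 : ![b, a] ∘ (Equiv.swap (0 : Fin 2) 1) = ![a, b] := by
    funext i
    fin_cases i <;> rfl
  rw [h2] at h
  exact h

theorem bil_self (a : E) : A ![a, a] = 0 := by
  have := bil_swap A a a
  linarith

theorem bil_add_right (a b c : E) : A ![c, a + b] = A ![c, a] + A ![c, b] := by
  rw [bil_swap, bil_add_left, bil_swap A a c, bil_swap A b c]
  ring

theorem bil_smul_right (r : ℝ) (a c : E) : A ![c, r • a] = r * A ![c, a] := by
  rw [bil_swap, bil_smul_left, bil_swap A a c]
  ring

theorem bil_neg_left (a c : E) : A ![-a, c] = -A ![a, c] := by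
  have := bil_smul_left A (-1) a c
  rw [neg_one_smul] at this
  linarith

theorem bil_neg_right (a c : E) : A ![c, -a] = -A ![c, a] := by
  rw [bil_swap, bil_neg_left, bil_swap A a c, neg_neg]

theorem bil_zero_left (c : E) : A ![0, c] = 0 := by
  have := bil_smul_left A 0 0 c
  rw [zero_smul, zero_mul] at this
  exact this

theorem bil_zero_right (c : E) : A ![c, 0] = 0 := by
  rw [bil_swap, bil_zero_left, neg_zero]

end bil

theorem J_add (v w : C3) : J (v + w) = J v + J w := smul_add _ _ _

theorem J_smul (r : ℝ) (v : C3) : J (r • v) = r • J v := smul_comm _ _ _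

theorem J_J (v : C3) : J (J v) = -v := by
  unfold J
  rw [smul_smul, Complex.I_mul_I, neg_one_smul]

theorem J_zero : J 0 = 0 := smul_zero _

theorem J_neg (v : C3) : J (-v) = -J v := smul_neg _ _

theorem J_sub (v w : C3) : J (v - w) = J v - J w := smul_sub _ _ _

/-- complex multiples in real terms -/
theorem csmul (c : ℂ) (v : C3) : c • v = c.re • v + c.im • J v := by
  unfold J
  have h1 : ∀ (r : ℝ) (x : C3), r • x = (r : ℂ) • x := fun r x => by
    ext i
    simp
  rw [h1, h1, smul_smul, ← add_smul]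
  congr 1
  exact (Complex.re_add_im c).symm

theorem J_csmul (c : ℂ) (v : C3) : J (c • v) = c • J v := smul_comm _ _ _

/-- half of the square, as a function of an alternating form -/
def pfA (A : C3 [⋀^Fin 2]→L[ℝ] ℝ) (v w : C3) : ℝ :=
  A ![v, J v] * A ![w, J w] - A ![v, w] * A ![J v, J w] + A ![v, J w] * A ![J v, w]

/-- the polarization of `pfA` -/
def wd (A B : C3 [⋀^Fin 2]→L[ℝ] ℝ) (v w : C3) : ℝ :=
  A ![v, J v] * B ![w, J w] + B ![v, J v] * A ![w, J w]
    - A ![v, w] * B ![J v, J w] - B ![v, w] * A ![J v, J w]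
    + A ![v, J w] * B ![J v, w] + B ![v, J w] * A ![J v, w]

theorem wedge_eq (A B : TwoForm) (z v w : C3) :
    wedge (ev A z) (ev B z) v w = wd (A.1 z) (B.1 z) v w := rfl

theorem wd_self (A : C3 [⋀^Fin 2]→L[ℝ] ℝ) (v w : C3) : wd A A v w = 2 * pfA A v w := by
  unfold wd pfA
  ring

theorem wd_comm (A B : C3 [⋀^Fin 2]→L[ℝ] ℝ) (v w : C3) : wd A B v w = wd B A v w := by
  unfold wd
  ring

theorem pfA_add (A B : C3 [⋀^Fin 2]→L[ℝ] ℝ) (v w : C3) :
    pfA (A + B) v w = pfA A v w + wd A B v w + pfA B v w := by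
  unfold pfA wd
  simp only [ContinuousAlternatingMap.add_apply]
  ring

theorem pfA_smul (r : ℝ) (A : C3 [⋀^Fin 2]→L[ℝ] ℝ) (v w : C3) :
    pfA (r • A) v w = r ^ 2 * pfA A v w := by
  unfold pfA
  simp only [ContinuousAlternatingMap.smul_apply, smul_eq_mul]
  ring

theorem wd_smul_left (r : ℝ) (A B : C3 [⋀^Fin 2]→L[ℝ] ℝ) (v w : C3) :
    wd (r • A) B v w = r * wd A B v w := by
  unfold wd
  simp only [ContinuousAlternatingMap.smul_apply, smul_eq_mul]
  ring

theorem wd_smul_right (r : ℝ) (A B : C3 [⋀^Fin 2]→L[ℝ] ℝ) (v w : C3) :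
    wd A (r • B) v w = r * wd A B v w := by
  unfold wd
  simp only [ContinuousAlternatingMap.smul_apply, smul_eq_mul]
  ring

theorem wd_add_right (A B C : C3 [⋀^Fin 2]→L[ℝ] ℝ) (v w : C3) :
    wd A (B + C) v w = wd A B v w + wd A C v w := by
  unfold wd
  simp only [ContinuousAlternatingMap.add_apply]
  ring

theorem wd_add_left (A B C : C3 [⋀^Fin 2]→L[ℝ] ℝ) (v w : C3) :
    wd (A + B) C v w = wd A C v w + wd B C v w := by
  unfold wd
  simp only [ContinuousAlternatingMap.add_apply]
  ring

/-- the square under a complex linear change of the pair of vectors -/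
theorem pfA_comb (A : C3 [⋀^Fin 2]→L[ℝ] ℝ) (e n : C3) (a b c d : ℂ) :
    pfA A (a • e + b • n) (c • e + d • n) = Complex.normSq (a * d - b * c) * pfA A e n := by
  unfold pfA
  rw [csmul a e, csmul b n, csmul c e, csmul d n]
  simp only [J_add, J_smul, J_J, bil_add_left, bil_add_right, bil_smul_left, bil_smul_right,
    bil_neg_left, bil_neg_right, smul_neg, bil_self]
  rw [bil_swap A (J e) e, bil_swap A (J n) n, bil_swap A n e, bil_swap A (J n) e,
    bil_swap A n (J e), bil_swap A (J n) (J e)]
  rw [Complex.normSq_apply]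
  simp only [Complex.sub_re, Complex.sub_im, Complex.mul_re, Complex.mul_im]
  ring

theorem wd_comb (A B : C3 [⋀^Fin 2]→L[ℝ] ℝ) (e n : C3) (a b c d : ℂ) :
    wd A B (a • e + b • n) (c • e + d • n) = Complex.normSq (a * d - b * c) * wd A B e n := by
  have h1 := pfA_comb (A + B) e n a b c d
  rw [pfA_add, pfA_add, pfA_comb, pfA_comb] at h1
  linarith

end Pool.Agent.H820.PC
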