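import Pool.Agent.H820.PC.Pos

/-!
One-forms, their exterior derivatives, and basic forms.
-/

set_option autoImplicit false

open Set Topology Filter
open scoped ContDiff

noncomputable section

namespace Pool.Agent.H820.PC

/-- covectors are alternating one-forms -/
def covL : (C3 →L[ℝ] ℝ) ≃ₗᵢ[ℝ] (C3 [⋀^Fin 1]→L[ℝ] ℝ) :=
  ContinuousAlternatingMap.ofSubsingletonLIE (0 : Fin 1)

theorem covL_apply (b : C3 →L[ℝ] ℝ) (v : Fin 1 → C3) : covL b v = b (v 0) := rfl

theorem covL_symm (A : C3 [⋀^Fin 1]→L[ℝ] ℝ) (v : C3) : covL.symm A v = A ![v] := by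
  obtain ⟨a, rfl⟩ := covL.surjective A
  rw [covL.symm_apply_apply]
  rfl

/-- `covL` as a continuous linear map -/
def covM : (C3 →L[ℝ] ℝ) →L[ℝ] (C3 [⋀^Fin 1]→L[ℝ] ℝ) :=
  covL.toContinuousLinearEquiv.toContinuousLinearMap

/-- the inverse of `covL` as a continuous linear map -/
def covS : (C3 [⋀^Fin 1]→L[ℝ] ℝ) →L[ℝ] (C3 →L[ℝ] ℝ) :=
  covL.symm.toContinuousLinearEquiv.toContinuousLinearMap

theorem covS_apply (A : C3 [⋀^Fin 1]→L[ℝ] ℝ) (v : C3) : covS A v = A ![v] := covL_symm A v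

theorem two_le_inf : minSmoothness ℝ 2 ≤ (∞ : WithTop ℕ∞) := by
  rw [minSmoothness_of_isRCLikeNormedField]
  have h : ((2 : ℕ∞) : WithTop ℕ∞) ≤ ((⊤ : ℕ∞) : WithTop ℕ∞) := WithTop.coe_le_coe.2 le_top
  exact h

/-- the one-form of a covector field -/
def cov (b : C3 → C3 →L[ℝ] ℝ) : Form 1 := fun z => covM (b z)

theorem cov_apply (b : C3 → C3 →L[ℝ] ℝ) (z v : C3) : cov b z ![v] = b z v := rfl

theorem cov_apply' (b : C3 → C3 →L[ℝ] ℝ) (z : C3) (v : Fin 1 → C3) : cov b z v = b z (v 0) := rfl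

theorem extDeriv_one {β : Form 1} {z : C3} (_ : DifferentiableAt ℝ β z) (v w : C3) :
    extDeriv β z ![v, w] = fderiv ℝ β z v ![w] - fderiv ℝ β z w ![v] := by
  unfold extDeriv
  rw [ContinuousAlternatingMap.alternatizeUncurryFin_apply, Fin.sum_univ_two]
  have e0 : (0 : Fin 2).removeNth ![v, w] = ![w] := by
    funext i
    fin_cases i
    rfl
  have e1 : (1 : Fin 2).removeNth ![v, w] = ![v] := by
    funext i
    fin_cases i
    rfl
  rw [e0, e1]
  simp
  ring

theorem fderiv_cov {b : C3 → C3 →L[ℝ] ℝ} {b' : C3 →L[ℝ] C3 →L[ℝ] ℝ} {z : C3}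
    (h : HasFDerivAt b b' z) (v w : C3) : fderiv ℝ (cov b) z v ![w] = b' v w := by
  have h1 : HasFDerivAt (cov b) (covM.comp b') z := covM.hasFDerivAt.comp z h
  rw [h1.fderiv]
  rfl

theorem differentiableAt_cov {b : C3 → C3 →L[ℝ] ℝ} {z : C3} (h : DifferentiableAt ℝ b z) :
    DifferentiableAt ℝ (cov b) z :=
  covM.differentiableAt.comp z h

theorem contDiffOn_cov {b : C3 → C3 →L[ℝ] ℝ} {s : Set C3} (h : ContDiffOn ℝ ∞ b s) :
    ContDiffOn ℝ ∞ (cov b) s :=
  covM.contDiff.comp_contDiffOn h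

theorem extDeriv_cov {b : C3 → C3 →L[ℝ] ℝ} {b' : C3 →L[ℝ] C3 →L[ℝ] ℝ} {z : C3}
    (h : HasFDerivAt b b' z) (v w : C3) : extDeriv (cov b) z ![v, w] = b' v w - b' w v := by
  rw [extDeriv_one (differentiableAt_cov h.differentiableAt), fderiv_cov h, fderiv_cov h]

/-- the exterior derivative of `f b` -/
theorem extDeriv_smul_cov {f : C3 → ℝ} {f' : C3 →L[ℝ] ℝ} {b : C3 → C3 →L[ℝ] ℝ}
    {b' : C3 →L[ℝ] C3 →L[ℝ] ℝ} {z : C3} (hf : HasFDerivAt f f' z) (hb : HasFDerivAt b b' z)
    (v w : C3) : extDeriv (cov fun z => f z • b z) z ![v, w] =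
      f z * (b' v w - b' w v) + f' v * b z w - f' w * b z v := by
  rw [extDeriv_cov (hf.fun_smul hb)]
  simp
  ring

theorem isOpen_ne0 : IsOpen {z : C3 | z ≠ 0} := isOpen_ne

theorem mem_nhds_Dom {z : C3} (hz : z ≠ 0) : Dom ∈ 𝓝 z := isOpen_Dom.mem_nhds hz

/-- the exterior derivative on `ℂ³ ∖ {0}`, with value zero at the origin -/
def dB (β : Form 1) : Form 2 := fun z => by
  classical exact if z = 0 then 0 else extDeriv β z

theorem dB_ne (β : Form 1) {z : C3} (hz : z ≠ 0) : dB β z = extDeriv β z := by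
  unfold dB
  rw [if_neg hz]

theorem contDiffOn_extDeriv {k : ℕ} {β : Form k} (h : ContDiffOn ℝ ∞ β Dom) :
    ContDiffOn ℝ ∞ (extDeriv β) Dom := by
  have h1 : ContDiffOn ℝ ∞ (fderiv ℝ β) Dom :=
    h.fderiv_of_isOpen isOpen_Dom (by norm_cast)
  exact (ContinuousAlternatingMap.alternatizeUncurryFinCLM ℝ C3 ℝ).contDiff.comp_contDiffOn h1

theorem contDiffOn_dB {β : Form 1} (h : ContDiffOn ℝ ∞ β Dom) :
    ContDiffOn ℝ ∞ (dB β) Dom :=
  (contDiffOn_extDeriv h).congr fun _ hz => dB_ne β hz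

theorem differentiableAt_of {k : ℕ} {β : Form k} (h : ContDiffOn ℝ ∞ β Dom) {z : C3}
    (hz : z ≠ 0) : DifferentiableAt ℝ β z :=
  (h.contDiffAt (mem_nhds_Dom hz)).differentiableAt (by simp)

/-- multiplication by a complex number, as a real linear map -/
def mulC (c : ℂ) : C3 →L[ℝ] C3 := (c • ContinuousLinearMap.id ℂ C3).restrictScalars ℝ

theorem mulC_apply (c : ℂ) (z : C3) : mulC c z = c • z := rfl

/-- one-forms which are invariant, and constant on the vertical vectors -/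
structure IsConn (β : Form 1) : Prop where
  smooth : ContDiffOn ℝ ∞ β Dom
  invariant : ∀ (c : ℂ) (z : C3) (v : Fin 1 → C3), c ≠ 0 → z ≠ 0 →
    β (c • z) (fun i => c • v i) = β z v
  vertical : ∃ l : ℂ → ℝ, ∀ (z : C3) (c : ℂ), z ≠ 0 → β z ![c • z] = l c

theorem IsForm.isConn {β : Form 1} (h : IsForm 1 β) : IsConn β :=
  ⟨h.smooth, h.invariant, 0, fun z c hz => h.horizontal z _ 0 c hz rfl⟩

theorem dB_invariant {β : Form 1} (h : IsConn β) {c : ℂ} {z : C3} (hc : c ≠ 0) (hz : z ≠ 0)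
    (v : Fin 2 → C3) : extDeriv β (c • z) (fun i => c • v i) = extDeriv β z v := by
  have hcz : c • z ≠ 0 := smul_ne_zero hc hz
  have h1 := extDeriv_pullback (f := mulC c) (x := z) (r := ∞)
    (differentiableAt_of h.smooth hcz) (mulC c).contDiff.contDiffAt two_le_inf
  have h2 : (fun x => (β (mulC c x)).compContinuousLinearMap (fderiv ℝ (mulC c) x)) =ᶠ[𝓝 z] β := by
    filter_upwards [isOpen_ne0.mem_nhds hz] with y hy
    ext u
    rw [ContinuousAlternatingMap.compContinuousLinearMap_apply, ContinuousLinearMap.fderiv]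
    exact h.invariant c y u hc hy
  rw [h2.extDeriv_eq, ContinuousLinearMap.fderiv] at h1
  rw [h1]
  rfl

theorem dB_horizontal {β : Form 1} (h : IsConn β) {z : C3} (hz : z ≠ 0) (c : ℂ) (w : C3) :
    extDeriv β z ![c • z, w] = 0 := by
  have hd := differentiableAt_of h.smooth hz
  obtain ⟨l, hl⟩ := h.vertical
  rw [extDeriv_one hd]
  -- differentiate the invariance in the direction `c`
  have h1 : fderiv ℝ β z (c • z) ![w] + β z ![c • w] = 0 := by
    -- the curve `t ↦ 1 + t c`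
    have hc1 : HasDerivAt (fun t : ℝ => (1 + (t : ℂ) * c) • z) (c • z) 0 := by
      have := ((Complex.ofRealCLM.hasDerivAt (x := (0 : ℝ))).mul_const c).const_add 1
      have h2 := this.smul_const z
      simpa using h2
    have hc2 : HasDerivAt (fun t : ℝ => (1 + (t : ℂ) * c) • w) (c • w) 0 := by
      have := ((Complex.ofRealCLM.hasDerivAt (x := (0 : ℝ))).mul_const c).const_add 1
      have h2 := this.smul_const w
      simpa using h2
    have h3 : HasDerivAt (fun t : ℝ => β ((1 + (t : ℂ) * c) • z)) (fderiv ℝ β z (c • z)) 0 := by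
      have h4 : HasFDerivAt β (fderiv ℝ β z) ((fun t : ℝ => (1 + (t : ℂ) * c) • z) 0) := by
        simpa using hd.hasFDerivAt
      exact h4.comp_hasDerivAt 0 hc1
    -- covectors
    have h5 : HasDerivAt (fun t : ℝ => covS (β ((1 + (t : ℂ) * c) • z)))
        (covS (fderiv ℝ β z (c • z))) 0 := covS.hasFDerivAt.comp_hasDerivAt 0 h3
    have h6 := h5.clm_apply hc2
    have h7 : (fun t : ℝ => covS (β ((1 + (t : ℂ) * c) • z)) ((1 + (t : ℂ) * c) • w)) =ᶠ[𝓝 0]
        fun _ => β z ![w] := by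
      have hcont : Continuous fun t : ℝ => 1 + (t : ℂ) * c := by fun_prop
      have h8 : ∀ᶠ t : ℝ in 𝓝 0, 1 + (t : ℂ) * c ≠ 0 := by
        apply hcont.continuousAt.eventually_ne
        simp
      filter_upwards [h8] with t ht
      rw [covS_apply, ← h.invariant _ z ![w] ht hz]
      congr 1
      funext i
      fin_cases i
      rfl
    have h9 := (h6.congr_of_eventuallyEq h7.symm).unique (hasDerivAt_const (0 : ℝ) (β z ![w]))
    simp only [covS_apply, Complex.ofReal_zero, zero_mul, add_zero, one_smul] at h9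
    exact h9
  -- differentiate the horizontality
  have h2 : fderiv ℝ β z w ![c • z] + β z ![c • w] = 0 := by
    have hc1 : HasDerivAt (fun t : ℝ => z + t • w) w 0 := by
      have h2 := ((hasDerivAt_id (0 : ℝ)).smul_const w).const_add z
      simpa using h2
    have hc2 : HasDerivAt (fun t : ℝ => c • (z + t • w)) (c • w) 0 := hc1.const_smul c
    have h3 : HasDerivAt (fun t : ℝ => β (z + t • w)) (fderiv ℝ β z w) 0 := by
      have h4 : HasFDerivAt β (fderiv ℝ β z) ((fun t : ℝ => z + t • w) 0) := by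
        simpa using hd.hasFDerivAt
      exact h4.comp_hasDerivAt 0 hc1
    have h5 : HasDerivAt (fun t : ℝ => covS (β (z + t • w))) (covS (fderiv ℝ β z w)) 0 :=
      covS.hasFDerivAt.comp_hasDerivAt 0 h3
    have h6 := h5.clm_apply hc2
    have h7 : (fun t : ℝ => covS (β (z + t • w)) (c • (z + t • w))) =ᶠ[𝓝 0]
        fun _ => l c := by
      have hcont : Continuous fun t : ℝ => z + t • w := by fun_prop
      have h8 : ∀ᶠ t : ℝ in 𝓝 0, z + t • w ≠ 0 := by
        apply hcont.continuousAt.eventually_ne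
        simpa using hz
      filter_upwards [h8] with t ht
      rw [covS_apply]
      exact hl _ c ht
    have h9 := (h6.congr_of_eventuallyEq h7.symm).unique (hasDerivAt_const (0 : ℝ) (l c))
    simp only [covS_apply, zero_smul, add_zero] at h9
    exact h9
  linarith

theorem isForm_dB {β : Form 1} (h : IsConn β) : IsForm 2 (dB β) := by
  have hinv : ∀ (c : ℂ) (z : C3) (v : Fin 2 → C3), c ≠ 0 → z ≠ 0 →
      dB β (c • z) (fun i => c • v i) = dB β z v := by
    intro c z v hc hz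
    rw [dB_ne β hz, dB_ne β (smul_ne_zero hc hz)]
    exact dB_invariant h hc hz v
  refine ⟨contDiffOn_dB h.smooth, hinv, ?_, ?_⟩
  · intro z v i c hz hv
    rw [dB_ne β hz]
    have hH : Hor (extDeriv β z) z := fun c w => dB_horizontal h hz c w
    have e : v = ![v 0, v 1] := by
      funext j
      fin_cases j <;> rfl
    fin_cases i
    · have hv' : v 0 = c • z := hv
      rw [e, hv']
      exact hH c _
    · have hv' : v 1 = c • z := hv
      rw [e, hv']
      exact hH.right c _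
  · unfold dB
    rw [if_pos rfl]

theorem closed_dB {β : Form 1} (h : ContDiffOn ℝ ∞ β Dom) {z : C3} (hz : z ≠ 0) :
    extDeriv (dB β) z = 0 := by
  have h1 : dB β =ᶠ[𝓝 z] extDeriv β := by
    filter_upwards [isOpen_ne0.mem_nhds hz] with y hy
    exact dB_ne β hy
  rw [h1.extDeriv_eq]
  exact extDeriv_extDeriv_apply (r := ∞) (h.contDiffAt (mem_nhds_Dom hz)) two_le_inf

end Pool.Agent.H820.PC
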