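import Mathlib

/-!
Differential forms on the complex projective plane, written as forms on `ℂ³ ∖ {0}`, the space of
smooth two-forms with the `C^∞` topology, symplectic forms in the class of the Fubini-Study form,
and positivity on complex curves: the definitions used in the statement of the result.
-/

set_option autoImplicit false

open Set Topology
open scoped ContDiff

noncomputable section

namespace Pool.Agent.H820.PC

section jets

variable {E F : Type} [NormedAddCommGroup E] [NormedSpace ℝ E] [NormedAddCommGroup F]
  [NormedSpace ℝ F]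

/-- the derivatives of order `k` of a function which is smooth on the open set `U`, as a
continuous function on `U` -/
def jet {U : Set E} (hU : IsOpen U) (k : ℕ) (f : {f : E → F // ContDiffOn ℝ ∞ f U}) :
    C(U, E [×k]→L[ℝ] F) :=
  ⟨fun z => iteratedFDeriv ℝ k f.1 z, by
    have h1 := f.2.continuousOn_iteratedFDerivWithin (m := k)
      (by exact_mod_cast le_top) hU.uniqueDiffOn
    have h2 := h1.congr (g := iteratedFDeriv ℝ k f.1)
      (fun p hp => (iteratedFDerivWithin_of_isOpen k hU hp).symm)
    exact continuousOn_iff_continuous_domRestrict.1 h2⟩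

/-- the `C^∞` topology on the functions which are smooth on `U`: uniform convergence of all
derivatives on compact subsets of `U` (the target of `jet hU k` has the compact-open topology) -/
@[instance_reducible]
def smoothTopology {U : Set E} (hU : IsOpen U) :
    TopologicalSpace {f : E → F // ContDiffOn ℝ ∞ f U} :=
  ⨅ k : ℕ, TopologicalSpace.induced (jet hU k) inferInstance

end jets

/-- `ℂ³` -/
abbrev C3 : Type := EuclideanSpace ℂ (Fin 3)

/-- `k`-forms on `ℂ³` with real values -/
abbrev Form (k : ℕ) : Type := C3 → C3 [⋀^Fin k]→L[ℝ] ℝ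

/-- `ℂ³ ∖ {0}` -/
def Dom : Set C3 := {z | z ≠ 0}

/-- `Ω` is the pull-back to `ℂ³ ∖ {0}` of a smooth `k`-form on `ℂℙ²`: it is smooth on
`ℂ³ ∖ {0}`, invariant under the multiplications by complex numbers, and it vanishes if one of the
vectors is tangent to the fibre `ℂ z`. (At the origin `Ω` has the value zero, by convention.) -/
structure IsForm (k : ℕ) (Ω : Form k) : Prop where
  smooth : ContDiffOn ℝ ∞ Ω Dom
  invariant : ∀ (c : ℂ) (z : C3) (v : Fin k → C3), c ≠ 0 → z ≠ 0 →
    Ω (c • z) (fun i => c • v i) = Ω z v
  horizontal : ∀ (z : C3) (v : Fin k → C3) (i : Fin k) (c : ℂ), z ≠ 0 → v i = c • z → Ω z v = 0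
  zero : Ω 0 = 0

/-- smooth two-forms on `ℂℙ²` -/
structure TwoForm : Type where
  form : Form 2
  isForm : IsForm 2 form

theorem isOpen_Dom : IsOpen Dom := isOpen_ne

/-- a two-form on `ℂℙ²` as a smooth function on `ℂ³ ∖ {0}` -/
def TwoForm.coeff (Ω : TwoForm) : {f : Form 2 // ContDiffOn ℝ ∞ f Dom} :=
  ⟨Ω.form, Ω.isForm.smooth⟩

/-- the `C^∞` topology on the space of the two-forms on `ℂℙ²` -/
instance instTopTwoForm : TopologicalSpace TwoForm :=
  TopologicalSpace.induced TwoForm.coeff (smoothTopology isOpen_Dom)

/-- multiplication by `i` -/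
def J (v : C3) : C3 := Complex.I • v

/-- The Fubini-Study form, `(i/2) ∂∂̄ log |z|²`. Here `inner ℝ` is the real part of the Hermitian
inner product. -/
def fs (z v w : C3) : ℝ :=
  inner ℝ (J v) w / ‖z‖ ^ 2 -
    (inner ℝ z v * inner ℝ (J z) w - inner ℝ z w * inner ℝ (J z) v) / ‖z‖ ^ 4

/-- the exterior derivative of a form on `ℂ³` -/
def d {k : ℕ} (β : Form k) (z : C3) (v : Fin (k + 1) → C3) : ℝ := extDeriv β z v

/-- `Ω` is cohomologous to the Fubini-Study form: it differs from it by the exterior derivative
of a smooth one-form on `ℂℙ²`. -/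
def Cohomologous (Ω : Form 2) : Prop :=
  ∃ β : Form 1, IsForm 1 β ∧ ∀ z v w : C3, z ≠ 0 → Ω z ![v, w] = fs z v w + d β z ![v, w]

/-- `Ω` is closed -/
def Closed (Ω : Form 2) : Prop := ∀ z u v w : C3, z ≠ 0 → d Ω z ![u, v, w] = 0

/-- the values of `Ω` at `z` -/
def ev (Ω : TwoForm) (z v w : C3) : ℝ := Ω.form z ![v, w]

/-- the value of `a ∧ b` on `(v, i v, w, i w)`, for two alternating forms `a` and `b` -/
def wedge (a b : C3 → C3 → ℝ) (v w : C3) : ℝ :=
  a v (J v) * b w (J w) + b v (J v) * a w (J w) - a v w * b (J v) (J w) - b v w * a (J v) (J w)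
    + a v (J w) * b (J v) w + b v (J w) * a (J v) w

/-- `Ω` is a symplectic form on `ℂℙ²` in the class of the Fubini-Study form: it is closed,
cohomologous to the Fubini-Study form, and `Ω ∧ Ω` is positive for the complex orientation (the
tangent space of `ℂℙ²` at `z` is the quotient of `ℂ³` by `ℂ z`). -/
structure IsSymplectic (Ω : TwoForm) : Prop where
  closed : Closed Ω.form
  cohomologous : Cohomologous Ω.form
  positive : ∀ z v w : C3, LinearIndependent ℂ ![z, v, w] → 0 < wedge (ev Ω z) (ev Ω z) v w

/-- `Ω` tames the complex structure of `ℂℙ²`: it is positive on all complex lines in the tangent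
spaces. -/
def Tames (Ω : TwoForm) : Prop :=
  ∀ z v : C3, z ≠ 0 → (∀ c : ℂ, v ≠ c • z) → 0 < ev Ω z v (J v)

/-- `F` is the equation of an algebraic curve of degree `k` in `ℂℙ²`: a nonzero holomorphic
function on `ℂ³` which is homogeneous of degree `k ≥ 1` (that is, a homogeneous polynomial). -/
structure IsCurve (k : ℕ) (F : C3 → ℂ) : Prop where
  pos : 1 ≤ k
  holomorphic : ContDiff ℂ ∞ F
  homogeneous : ∀ (c : ℂ) (z : C3), F (c • z) = c ^ k * F z
  nonzero : ∃ z, F z ≠ 0

/-- `Ω` is positive on the curve `{F = 0}`: at all points `z` of the curve it is positive on the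
complex lines in the kernel of the differential of `F` (at the smooth points of the curve this is
the tangent line, and at the points where the differential of `F` vanishes these are all complex
lines in the tangent space of `ℂℙ²`). -/
def PositiveOn (Ω : TwoForm) (F : C3 → ℂ) : Prop :=
  ∀ z v : C3, z ≠ 0 → F z = 0 → fderiv ℂ F z v = 0 → (∀ c : ℂ, v ≠ c • z) → 0 < ev Ω z v (J v)

/-- through `z` passes an algebraic curve on which `Ω` is positive -/
def HasCurve (Ω : TwoForm) (z : C3) : Prop :=
  ∃ (k : ℕ) (F : C3 → ℂ), IsCurve k F ∧ F z = 0 ∧ PositiveOn Ω F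

/-- The symplectic forms `Ω` in the class of the Fubini-Study form with the following property:
there is a symplectic form `κ` in the same class which tames the complex structure (for example
the Fubini-Study form) such that through every point of `ℂℙ²` at which `Ω ∧ κ` is not positive
passes an algebraic curve on which `Ω` is positive. -/
def Covered : Set TwoForm :=
  {Ω | IsSymplectic Ω ∧ ∃ κ : TwoForm, IsSymplectic κ ∧ Tames κ ∧
    ∀ z v w : C3, LinearIndependent ℂ ![z, v, w] → wedge (ev Ω z) (ev κ z) v w ≤ 0 →
      HasCurve Ω z}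

end Pool.Agent.H820.PC
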