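import Pool.Agent.H820.PC.Topo

/-!
The set `Covered` is contractible.
-/

set_option autoImplicit false

open Set Topology Filter
open scoped ContDiff unitInterval

noncomputable section

namespace Pool.Agent.H820.PC

/-- the symplectic forms `Ω` in the class of the Fubini-Study form for which there is a symplectic
form `κ` in the same class which tames the complex structure and satisfies `Ω ∧ κ > 0` -/
def Visible : Set TwoForm :=
  {Ω | IsSymplectic Ω ∧ ∃ κ : TwoForm, IsSymplectic κ ∧ Tames κ ∧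
    ∀ z v w : C3, LinearIndependent ℂ ![z, v, w] → 0 < wedge (ev Ω z) (ev κ z) v w}

/-- the segment from a symplectic form to a taming form whose wedge product with it is
positive -/
theorem seg_symplectic {Ω κ : TwoForm} (h : IsSymplectic Ω) (hk : IsK κ)
    (hw : ∀ z e n, IsFrame z e n → 0 < wd (Ω.1 z) (κ.1 z) e n) {t : ℝ} (h0 : 0 ≤ t)
    (h1 : t ≤ 1) : IsSymplectic ((1 - t) • Ω + t • κ) := by
  rcases h0.eq_or_lt with ht | ht
  · rw [← ht, sub_zero, one_smul, zero_smul, add_zero]
    exact h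
  have h1' : 0 ≤ 1 - t := by linarith
  refine ⟨closed_iff.2 (closed_comb (closed_iff.1 h.closed) hk.closed _ _),
    cohomologous_comb h.cohomologous hk.cohomologous (by ring),
    pos_of_frames ?_⟩
  intro z e n hf
  rw [add_at, smul_at, smul_at, pfA_add, pfA_smul, pfA_smul, wd_smul_left, wd_smul_right]
  have a1 : 0 < pfA (Ω.1 z) e n := frame_pos h.positive hf
  have a2 := hk.pfA_pos hf
  have a3 := hw z e n hf
  have b1 : 0 ≤ (1 - t) ^ 2 * pfA (Ω.1 z) e n := by positivity
  have b2 : 0 < t ^ 2 * pfA (κ.1 z) e n := by positivity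
  have b3 : 0 ≤ (1 - t) * (t * wd (Ω.1 z) (κ.1 z) e n) := by positivity
  linarith

/-- a contractibility criterion -/
theorem contractible_of {U : Set TwoForm} (h1 : ∀ Ω ∈ U, ∃ κ : TwoForm, IsK κ ∧
      ∀ z e n, IsFrame z e n → 0 < wd (Ω.1 z) (κ.1 z) e n) (h2 : ∀ κ, IsK κ → κ ∈ U)
    (h3 : ∀ Ω ∈ U, ∀ κ, IsK κ → (∀ z e n, IsFrame z e n → 0 < wd (Ω.1 z) (κ.1 z) e n) →
      ∀ t : ℝ, 0 ≤ t → t ≤ 1 → (1 - t) • Ω + t • κ ∈ U) : ContractibleSpace U := by
  rw [contractible_iff_id_nullhomotopic]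
  obtain ⟨g, hg⟩ := exists_choice h1
  let g' : C(U, U) := ⟨fun Ω => ⟨g Ω, h2 _ (hg Ω).1⟩, Continuous.subtype_mk g.continuous _⟩
  refine ⟨⟨fsForm, h2 _ isK_fsForm⟩, ?_⟩
  have H1 : (ContinuousMap.id U).Homotopic g' := ⟨{
    toFun := fun p => ⟨(1 - (p.1 : ℝ)) • p.2.1 + (p.1 : ℝ) • g p.2,
      h3 _ p.2.2 _ (hg p.2).1 (hg p.2).2 _ p.1.2.1 p.1.2.2⟩
    continuous_toFun := by
      refine Continuous.subtype_mk ?_ _
      have c1 : Continuous fun p : I × U => (p.1 : ℝ) := by fun_prop
      have c2 : Continuous fun p : I × U => p.2.1 := by fun_prop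
      have c3 : Continuous fun p : I × U => g p.2 := by fun_prop
      exact ((continuous_const.sub c1).smul c2).add (c1.smul c3)
    map_zero_left := by
      intro Ω
      apply Subtype.ext
      simp
    map_one_left := by
      intro Ω
      apply Subtype.ext
      simp [g'] }⟩
  have H2 : g'.Homotopic (ContinuousMap.const U ⟨fsForm, h2 _ isK_fsForm⟩) := ⟨{
    toFun := fun p => ⟨(1 - (p.1 : ℝ)) • g p.2 + (p.1 : ℝ) • fsForm,
      h2 _ (convex_IsK (hg p.2).1 isK_fsForm (by linarith [p.1.2.2]) p.1.2.1 (by ring))⟩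
    continuous_toFun := by
      refine Continuous.subtype_mk ?_ _
      have c1 : Continuous fun p : I × U => (p.1 : ℝ) := by fun_prop
      have c3 : Continuous fun p : I × U => g p.2 := by fun_prop
      exact ((continuous_const.sub c1).smul c3).add (c1.smul continuous_const)
    map_zero_left := by
      intro Ω
      apply Subtype.ext
      simp [g']
    map_one_left := by
      intro Ω
      apply Subtype.ext
      simp }⟩
  exact H1.trans H2

/-- the criterion, in invariant terms -/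
theorem visible_of {Ω κ₀ : TwoForm} (h : IsSymplectic Ω) (hk : IsSymplectic κ₀) (ht : Tames κ₀)
    (hc : ∀ z v w : C3, LinearIndependent ℂ ![z, v, w] →
      wedge (ev Ω z) (ev κ₀ z) v w ≤ 0 → HasCurve Ω z) : Ω ∈ Visible := by
  obtain ⟨κ, h1, h2⟩ := exists_taming (isK_iff.2 ⟨hk, ht⟩) fun z e n hf hle =>
    hc z e n hf.indep hle
  exact ⟨h, κ, (isK_iff.1 h1).1, (isK_iff.1 h1).2, fun z v w hi => wd_pos_of_frames h2 z v w hi⟩

theorem exists_of_visible {Ω : TwoForm} (h : Ω ∈ Visible) : ∃ κ : TwoForm, IsK κ ∧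
    ∀ z e n, IsFrame z e n → 0 < wd (Ω.1 z) (κ.1 z) e n := by
  obtain ⟨κ, h1, h2, h3⟩ := h.2
  exact ⟨κ, isK_iff.2 ⟨h1, h2⟩, fun z e n hf => h3 z e n hf.indep⟩

theorem covered_eq : Covered = Visible := by
  ext Ω
  constructor
  · rintro ⟨h, κ, h1, h2, h3⟩
    exact visible_of h h1 h2 h3
  · rintro ⟨h, κ, h1, h2, h3⟩
    exact ⟨h, κ, h1, h2, fun z v w hi hle => absurd (h3 z v w hi) (not_lt.2 hle)⟩

theorem contractible_visible : ContractibleSpace Visible := by
  refine contractible_of (fun _ h => exists_of_visible h) ?_ ?_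
  · intro κ h
    refine ⟨(isK_iff.1 h).1, κ, (isK_iff.1 h).1, (isK_iff.1 h).2, (isK_iff.1 h).1.positive⟩
  · intro Ω h κ hk hw t h0 h1
    refine ⟨seg_symplectic h.1 hk hw h0 h1, κ, (isK_iff.1 hk).1, (isK_iff.1 hk).2, ?_⟩
    apply wd_pos_of_frames
    intro z e n hf
    rw [add_at, smul_at, smul_at, wd_add_left, wd_smul_left, wd_smul_left, wd_self]
    have a2 := hk.pfA_pos hf
    have a3 := hw z e n hf
    rcases h0.eq_or_lt with ht | ht
    · rw [← ht]
      linarith
    · have h1' : 0 ≤ 1 - t := by linarith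
      have b1 : 0 ≤ (1 - t) * wd (Ω.1 z) (κ.1 z) e n := by positivity
      have b2 : 0 < t * (2 * pfA (κ.1 z) e n) := by positivity
      linarith

theorem contractible_covered : ContractibleSpace Covered := by
  rw [covered_eq]
  exact contractible_visible

end Pool.Agent.H820.PC
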