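import Pool.Agent.H820.PC.Bil

/-!
Unitary frames of `ℂ³` and horizontal forms.
-/

set_option autoImplicit false

open Set Topology
open scoped ContDiff

noncomputable section

namespace Pool.Agent.H820.PC

theorem inner_re (v w : C3) : inner ℝ v w = (inner ℂ v w).re := by
  simp [PiLp.inner_apply, Complex.inner]

theorem inner_im (v w : C3) : inner ℝ (J v) w = (inner ℂ v w).im := by
  unfold J
  simp [PiLp.inner_apply, Complex.inner]
  rw [← Finset.sum_sub_distrib]
  exact Finset.sum_congr rfl fun i _ => by ring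

/-- unitary frames -/
structure IsFrame (z e n : C3) : Prop where
  nz : ‖z‖ = 1
  ne : ‖e‖ = 1
  nn : ‖n‖ = 1
  ze : inner ℂ z e = 0
  zn : inner ℂ z n = 0
  en : inner ℂ e n = 0

/-- the set of the unitary frames -/
def Fr : Set (C3 × C3 × C3) := {p | IsFrame p.1 p.2.1 p.2.2}

theorem isCompact_Fr : IsCompact Fr := by
  have h1 : IsCompact ((Metric.sphere (0 : C3) 1) ×ˢ ((Metric.sphere (0 : C3) 1) ×ˢ
      (Metric.sphere (0 : C3) 1))) :=
    (isCompact_sphere _ _).prod ((isCompact_sphere _ _).prod (isCompact_sphere _ _))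
  refine h1.of_isClosed_subset ?_ ?_
  · have e : Fr = {p : C3 × C3 × C3 | ‖p.1‖ = 1} ∩ ({p | ‖p.2.1‖ = 1} ∩ ({p | ‖p.2.2‖ = 1} ∩
        ({p | inner ℂ p.1 p.2.1 = 0} ∩ ({p | inner ℂ p.1 p.2.2 = 0} ∩
          {p | inner ℂ p.2.1 p.2.2 = 0})))) := by
      ext p
      exact ⟨fun h => ⟨h.nz, h.ne, h.nn, h.ze, h.zn, h.en⟩,
        fun h => ⟨h.1, h.2.1, h.2.2.1, h.2.2.2.1, h.2.2.2.2.1, h.2.2.2.2.2⟩⟩
    rw [e]
    refine (isClosed_eq (by fun_prop) (by fun_prop)).inter
      ((isClosed_eq (by fun_prop) (by fun_prop)).inter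
      ((isClosed_eq (by fun_prop) (by fun_prop)).inter
      ((isClosed_eq (by fun_prop) (by fun_prop)).inter
      ((isClosed_eq (by fun_prop) (by fun_prop)).inter
      (isClosed_eq (by fun_prop) (by fun_prop))))))
  · rintro ⟨z, e, n⟩ h
    simp only [mem_prod, mem_sphere_iff_norm, sub_zero]
    exact ⟨h.nz, h.ne, h.nn⟩

theorem IsFrame.z0 {z e n : C3} (h : IsFrame z e n) : z ≠ 0 := by
  have h1 : ‖z‖ = 1 := h.nz
  intro h0
  rw [h0, norm_zero] at h1
  exact zero_ne_one h1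

theorem IsFrame.orthonormal {z e n : C3} (h : IsFrame z e n) : Orthonormal ℂ ![z, e, n] := by
  obtain ⟨h1, h2, h3, h4, h5, h6⟩ := h
  constructor
  · intro i
    fin_cases i
    · exact h1
    · exact h2
    · exact h3
  · intro i j hij
    have h4' : inner ℂ e z = 0 := inner_eq_zero_symm.1 h4
    have h5' : inner ℂ n z = 0 := inner_eq_zero_symm.1 h5
    have h6' : inner ℂ n e = 0 := inner_eq_zero_symm.1 h6
    fin_cases i <;> fin_cases j <;> simp_all

theorem IsFrame.expand {z e n : C3} (h : IsFrame z e n) (x : C3) :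
    x = inner ℂ z x • z + inner ℂ e x • e + inner ℂ n x • n := by
  have ho := h.orthonormal
  have hcard : Fintype.card (Fin 3) = Module.finrank ℂ C3 := by
    rw [finrank_C3]
    rfl
  have hne : Nonempty (Fin 3) := ⟨0⟩
  let b := basisOfOrthonormalOfCardEqFinrank ho hcard
  have hb : ⇑b = ![z, e, n] := coe_basisOfOrthonormalOfCardEqFinrank ho hcard
  have ho' : Orthonormal ℂ b := by
    rw [hb]
    exact ho
  let ob := b.toOrthonormalBasis ho'
  have hs := ob.sum_repr' x
  have hob : ∀ i, ob i = ![z, e, n] i := fun i => by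
    show (b.toOrthonormalBasis ho') i = _
    rw [Module.Basis.coe_toOrthonormalBasis, hb]
  rw [Fin.sum_univ_three] at hs
  simp only [hob] at hs
  exact hs.symm

/-- an alternating form which vanishes in the direction of `z` -/
def Hor (A : C3 [⋀^Fin 2]→L[ℝ] ℝ) (z : C3) : Prop := ∀ (c : ℂ) (w : C3), A ![c • z, w] = 0

theorem IsForm.hor {Ω : Form 2} (h : IsForm 2 Ω) {z : C3} (hz : z ≠ 0) : Hor (Ω z) z :=
  fun c w => h.horizontal z ![c • z, w] 0 c hz rfl

theorem Hor.right {A : C3 [⋀^Fin 2]→L[ℝ] ℝ} {z : C3} (h : Hor A z) (c : ℂ) (w : C3) :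
    A ![w, c • z] = 0 := by
  rw [bil_swap, h, neg_zero]

theorem Hor.add_left {A : C3 [⋀^Fin 2]→L[ℝ] ℝ} {z : C3} (h : Hor A z) (c : ℂ) (v w : C3) :
    A ![c • z + v, w] = A ![v, w] := by
  rw [bil_add_left, h, zero_add]

theorem Hor.add_right {A : C3 [⋀^Fin 2]→L[ℝ] ℝ} {z : C3} (h : Hor A z) (c : ℂ) (v w : C3) :
    A ![w, c • z + v] = A ![w, v] := by
  rw [bil_add_right, h.right, zero_add]

theorem Hor.pfA {A : C3 [⋀^Fin 2]→L[ℝ] ℝ} {z : C3} (h : Hor A z) (c d : ℂ) (v w : C3) :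
    pfA A (c • z + v) (d • z + w) = pfA A v w := by
  have h1 : ∀ (c : ℂ) (v : C3), J (c • z + v) = (Complex.I * c) • z + J v := fun c v => by
    rw [J_add]
    unfold J
    rw [smul_smul]
  unfold PC.pfA
  simp only [h1, h.add_left, h.add_right]

theorem Hor.wd {A B : C3 [⋀^Fin 2]→L[ℝ] ℝ} {z : C3} (h : Hor A z) (h' : Hor B z) (c d : ℂ)
    (v w : C3) : wd A B (c • z + v) (d • z + w) = wd A B v w := by
  have h1 : ∀ (c : ℂ) (v : C3), J (c • z + v) = (Complex.I * c) • z + J v := fun c v => by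
    rw [J_add]
    unfold J
    rw [smul_smul]
  unfold PC.wd
  simp only [h1, h.add_left, h.add_right, h'.add_left, h'.add_right]

theorem exists_unit_orthogonal (a b : C3) : ∃ n : C3, ‖n‖ = 1 ∧ inner ℂ a n = 0 ∧
    inner ℂ b n = 0 := by
  classical
  let S : Submodule ℂ C3 := Submodule.span ℂ {a, b}
  have h1 : Module.finrank ℂ S ≤ 2 := by
    refine (finrank_span_le_card ({a, b} : Set C3)).trans ?_
    simp only [Set.toFinset_insert, Set.toFinset_singleton]
    exact Finset.card_le_two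
  have h2 : Module.finrank ℂ S + Module.finrank ℂ Sᗮ = 3 := by
    have := S.finrank_add_finrank_orthogonal
    rw [this, finrank_C3]
  have h3 : 0 < Module.finrank ℂ Sᗮ := by omega
  have h4 : Nontrivial Sᗮ := Module.nontrivial_of_finrank_pos h3
  obtain ⟨⟨x, hx⟩, hx0⟩ := exists_ne (0 : Sᗮ)
  have hx1 : x ≠ 0 := fun h => hx0 (by
    ext1
    exact h)
  have hn : ‖x‖ ≠ 0 := norm_ne_zero_iff.2 hx1
  have ha : inner ℂ a x = 0 := (Submodule.mem_orthogonal S x).1 hx a
    (Submodule.subset_span (by simp))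
  have hb : inner ℂ b x = 0 := (Submodule.mem_orthogonal S x).1 hx b
    (Submodule.subset_span (by simp))
  refine ⟨((‖x‖ : ℂ)⁻¹) • x, ?_, ?_, ?_⟩
  · rw [norm_smul, norm_inv, Complex.norm_real, norm_norm, inv_mul_cancel₀ hn]
  · rw [inner_smul_right, ha, mul_zero]
  · rw [inner_smul_right, hb, mul_zero]

/-- frames adapted to a complex linear functional -/
theorem exists_frame {z : C3} (hz : ‖z‖ = 1) (L : C3 →L[ℂ] ℂ) :
    ∃ e n : C3, IsFrame z e n ∧ L e = 0 := by
  obtain ⟨l, hl⟩ : ∃ l : C3, ∀ x, inner ℂ l x = L x :=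
    ⟨(InnerProductSpace.toDual ℂ C3).symm L, fun x => by simp⟩
  obtain ⟨e, he1, he2, he3⟩ := exists_unit_orthogonal z l
  obtain ⟨n, hn1, hn2, hn3⟩ := exists_unit_orthogonal z e
  exact ⟨e, n, ⟨hz, he1, hn1, he2, hn2, hn3⟩, by rw [← hl, he3]⟩

theorem IsFrame.mem_horizontal {z e n x : C3} (h : IsFrame z e n) (hx : inner ℂ z x = 0) :
    x = inner ℂ e x • e + inner ℂ n x • n := by
  have := h.expand x
  rw [hx, zero_smul, zero_add] at this
  exact this

/-- two frames at the same point -/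
theorem IsFrame.change {z e n e' n' : C3} (h : IsFrame z e n) (h' : IsFrame z e' n') :
    ∃ a b c d : ℂ, e' = a • e + b • n ∧ n' = c • e + d • n ∧
      Complex.normSq (a * d - b * c) = 1 := by
  refine ⟨inner ℂ e e', inner ℂ n e', inner ℂ e n', inner ℂ n n', h.mem_horizontal h'.ze,
    h.mem_horizontal h'.zn, ?_⟩
  set a := inner ℂ e e'
  set b := inner ℂ n e'
  set c := inner ℂ e n'
  set d := inner ℂ n n'
  have he' : e' = a • e + b • n := h.mem_horizontal h'.ze
  have hn' : n' = c • e + d • n := h.mem_horizontal h'.zn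
  have h1 : inner ℂ e e = (1 : ℂ) := by
    rw [inner_self_eq_norm_sq_to_K, h.ne]
    simp
  have h2 : inner ℂ n n = (1 : ℂ) := by
    rw [inner_self_eq_norm_sq_to_K, h.nn]
    simp
  have h3 : inner ℂ e n = (0 : ℂ) := h.en
  have h4 : inner ℂ n e = (0 : ℂ) := inner_eq_zero_symm.1 h3
  have k1 : inner ℂ e' e' = (1 : ℂ) := by
    rw [inner_self_eq_norm_sq_to_K, h'.ne]
    simp
  have k2 : inner ℂ n' n' = (1 : ℂ) := by
    rw [inner_self_eq_norm_sq_to_K, h'.nn]
    simp
  have k3 : inner ℂ e' n' = (0 : ℂ) := h'.en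
  have key : ∀ p q r s : ℂ, inner ℂ (p • e + q • n) (r • e + s • n) =
      (starRingEnd ℂ) p * r + (starRingEnd ℂ) q * s := by
    intro p q r s
    simp only [inner_add_left, inner_add_right, inner_smul_left, inner_smul_right, h1, h2, h3, h4]
    ring
  have m1 : (starRingEnd ℂ) a * a + (starRingEnd ℂ) b * b = 1 := by
    rw [← key, ← he']
    exact k1
  have m2 : (starRingEnd ℂ) c * c + (starRingEnd ℂ) d * d = 1 := by
    rw [← key, ← hn']
    exact k2
  have m3 : (starRingEnd ℂ) a * c + (starRingEnd ℂ) b * d = 0 := by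
    rw [← key, ← he', ← hn']
    exact k3
  have m4 : a * (starRingEnd ℂ) c + b * (starRingEnd ℂ) d = 0 := by
    have := congrArg (starRingEnd ℂ) m3
    simpa using this
  have m5 : ((Complex.normSq (a * d - b * c) : ℝ) : ℂ) = 1 := by
    rw [← Complex.mul_conj]
    simp only [map_sub, map_mul]
    linear_combination ((starRingEnd ℂ) c * c + (starRingEnd ℂ) d * d) * m1 + m2 -
      (a * (starRingEnd ℂ) c + b * (starRingEnd ℂ) d) * m3
  exact_mod_cast m5

theorem wd_frame {A B : C3 [⋀^Fin 2]→L[ℝ] ℝ} {z e n e' n' : C3} (h : IsFrame z e n)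
    (h' : IsFrame z e' n') : wd A B e' n' = wd A B e n := by
  obtain ⟨a, b, c, d, h1, h2, h3⟩ := h.change h'
  rw [h1, h2, wd_comb, h3, one_mul]

end Pool.Agent.H820.PC
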