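import Pool.Agent.H820.PC.Cov

/-!
Kähler forms which are concentrated near an algebraic curve.
-/

set_option autoImplicit false

open Set Topology Filter
open scoped ContDiff

noncomputable section

namespace Pool.Agent.H820.PC

/-- the real inner product as a bilinear map -/
def ip : C3 →L[ℝ] C3 →L[ℝ] ℝ := (isBoundedBilinearMap_inner (𝕜 := ℝ) (E := C3)).toContinuousLinearMap

theorem ip_apply (v w : C3) : ip v w = inner ℝ v w := rfl

/-- the real inner product of `ℂ` as a bilinear map -/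
def ipC : ℂ →L[ℝ] ℂ →L[ℝ] ℝ := (isBoundedBilinearMap_inner (𝕜 := ℝ) (E := ℂ)).toContinuousLinearMap

theorem ipC_apply (v w : ℂ) : ipC v w = inner ℝ v w := rfl

/-- the one-form `⟪J z, v⟫` -/
def tau : C3 →L[ℝ] C3 →L[ℝ] ℝ := ip.comp (mulC Complex.I)

theorem tau_apply (z v : C3) : tau z v = inner ℝ (J z) v := rfl

theorem inner_J_J (v w : C3) : inner ℝ (J v) (J w) = inner ℝ v w := by
  rw [inner_re, inner_re]
  unfold J
  rw [inner_smul_left, inner_smul_right]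
  simp [← mul_assoc]

theorem inner_J_right (v w : C3) : inner ℝ v (J w) = -inner ℝ (J v) w := by
  have := inner_J_J v (J w)
  rw [J_J, inner_neg_right] at this
  rw [← this]

theorem inner_J_swap (v w : C3) : inner ℝ (J w) v = -inner ℝ (J v) w := by
  rw [real_inner_comm, inner_J_right]

theorem inner_J_self (v : C3) : inner ℝ (J v) v = 0 := by
  have := inner_J_swap v v
  linarith

/-- the one-form `⟪i F z, F' z v⟫` -/
def sig (F : C3 → ℂ) (z : C3) : C3 →L[ℝ] ℝ := (ipC (Complex.I * F z)).comp (fderiv ℝ F z)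

theorem sig_apply (F : C3 → ℂ) (z v : C3) :
    sig F z v = inner ℝ (Complex.I * F z) (fderiv ℝ F z v) := rfl

theorem contDiff_sig {F : C3 → ℂ} (hF : ContDiff ℝ ∞ F) : ContDiff ℝ ∞ (sig F) := by
  have h1 : ContDiff ℝ ∞ (fderiv ℝ F) := hF.fderiv_right (by norm_cast)
  have h2 : ContDiff ℝ ∞ fun z => ipC (Complex.I * F z) :=
    ipC.contDiff.comp (contDiff_const.mul hF)
  exact h2.clm_comp h1

theorem inner_I_swap (a b : ℂ) : inner ℝ (Complex.I * b) a = -inner ℝ (Complex.I * a) b := by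
  simp only [Complex.inner, map_mul, Complex.conj_I, Complex.mul_re, Complex.mul_im,
    Complex.conj_re, Complex.conj_im, Complex.neg_re, Complex.neg_im, Complex.I_re, Complex.I_im]
  ring

theorem hasFDerivAt_sig {F : C3 → ℂ} (hF : ContDiff ℝ ∞ F) (z : C3) :
    ∃ S : C3 →L[ℝ] C3 →L[ℝ] ℝ, HasFDerivAt (sig F) S z ∧
      ∀ v w, S v w - S w v = 2 * inner ℝ (Complex.I * fderiv ℝ F z v) (fderiv ℝ F z w) := by
  have h1 : ContDiff ℝ ∞ (fderiv ℝ F) := hF.fderiv_right (by norm_cast)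
  have hd1 : HasFDerivAt (fderiv ℝ F) (fderiv ℝ (fderiv ℝ F) z) z :=
    (h1.differentiable (by simp) z).hasFDerivAt
  have hd0 : HasFDerivAt F (fderiv ℝ F z) z := (hF.differentiable (by simp) z).hasFDerivAt
  have hd2 : HasFDerivAt (fun z => ipC (Complex.I * F z))
      (ipC.comp (Complex.I • fderiv ℝ F z)) z := by
    have h3 : HasFDerivAt (fun z => Complex.I * F z) (Complex.I • fderiv ℝ F z) z :=
      hd0.const_mul Complex.I
    exact ipC.hasFDerivAt.comp z h3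
  have hd3 := hd2.clm_comp hd1
  refine ⟨_, hd3, fun v w => ?_⟩
  have hs : fderiv ℝ (fderiv ℝ F) z v w = fderiv ℝ (fderiv ℝ F) z w v :=
    (hF.contDiffAt.isSymmSndFDerivAt (n := ∞) two_le_inf) v w
  simp only [_root_.add_apply, ContinuousLinearMap.comp_apply,
    ContinuousLinearMap.compL_apply, ContinuousLinearMap.flip_apply,
    _root_.smul_apply, hs, ipC_apply, smul_eq_mul]
  rw [inner_I_swap (fderiv ℝ F z v) (fderiv ℝ F z w)]
  ring

/-- `|F|² / |z|^{2k}` -/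
def al (k : ℕ) (F : C3 → ℂ) (z : C3) : ℝ := ‖F z‖ ^ 2 * ((‖z‖ ^ 2) ^ k)⁻¹

theorem al_nonneg (k : ℕ) (F : C3 → ℂ) (z : C3) : 0 ≤ al k F z := by
  unfold al
  positivity

theorem contDiffOn_q (k : ℕ) : ContDiffOn ℝ ∞ (fun z : C3 => ((‖z‖ ^ 2) ^ k)⁻¹) Dom := by
  intro z hz
  have hz' : (‖z‖ ^ 2) ^ k ≠ 0 := pow_ne_zero _ (pow_ne_zero _ (norm_ne_zero_iff.2 hz))
  exact (((contDiff_norm_sq ℝ).pow k).contDiffAt.inv hz').contDiffWithinAt

theorem contDiffOn_al {k : ℕ} {F : C3 → ℂ} (hF : ContDiff ℝ ∞ F) :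
    ContDiffOn ℝ ∞ (al k F) Dom :=
  (hF.norm_sq ℝ).contDiffOn.mul (contDiffOn_q k)

theorem hasFDerivAt_q (k : ℕ) {z : C3} (hz : z ≠ 0) :
    ∃ Q : C3 →L[ℝ] ℝ, HasFDerivAt (fun z : C3 => ((‖z‖ ^ 2) ^ k)⁻¹) Q z ∧
      ∀ v, inner ℝ z v = 0 → Q v = 0 := by
  have hz' : ‖z‖ ^ 2 ≠ 0 := pow_ne_zero _ (norm_ne_zero_iff.2 hz)
  have h1 : HasFDerivAt (fun z : C3 => ‖z‖ ^ 2) _ z := (hasFDerivAt_id z).norm_sq
  have h2 : DifferentiableAt ℝ (fun x : ℝ => (x ^ k)⁻¹) (‖z‖ ^ 2) := by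
    apply DifferentiableAt.inv
    · fun_prop
    · exact pow_ne_zero _ hz'
  have h3 := h2.hasDerivAt.comp_hasFDerivAt z h1
  refine ⟨_, h3, fun v hv => ?_⟩
  simp [hv]

theorem hasFDerivAt_al (k : ℕ) {F : C3 → ℂ} (hF : ContDiff ℝ ∞ F) {z : C3} (hz : z ≠ 0)
    (hz1 : ‖z‖ = 1) :
    ∃ Q : C3 →L[ℝ] ℝ, HasFDerivAt (al k F) Q z ∧
      ∀ v, inner ℝ z v = 0 → Q v = 2 * inner ℝ (F z) (fderiv ℝ F z v) := by
  obtain ⟨Q, hQ, hQ'⟩ := hasFDerivAt_q k hz
  have h1 : HasFDerivAt (fun z : C3 => ‖F z‖ ^ 2) _ z :=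
    (hF.differentiable (by simp) z).hasFDerivAt.norm_sq
  have h2 := h1.mul hQ
  refine ⟨_, h2, fun v hv => ?_⟩
  simp [hQ' v hv, hz1]
  ring

/-- a function of `al` times a power of the norm -/
theorem hasFDerivAt_fal (k j : ℕ) {F : C3 → ℂ} (hF : ContDiff ℝ ∞ F) {z : C3} (hz : z ≠ 0)
    (hz1 : ‖z‖ = 1) {P : ℝ → ℝ} {p : ℝ} (hP : HasDerivAt P p (al k F z)) :
    ∃ Q : C3 →L[ℝ] ℝ, HasFDerivAt (fun z => P (al k F z) * ((‖z‖ ^ 2) ^ j)⁻¹) Q z ∧
      ∀ v, inner ℝ z v = 0 → Q v = p * (2 * inner ℝ (F z) (fderiv ℝ F z v)) := by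
  obtain ⟨Q, hQ, hQ'⟩ := hasFDerivAt_q j hz
  obtain ⟨R, hR, hR'⟩ := hasFDerivAt_al k hF hz hz1
  have h1 := (hP.comp_hasFDerivAt z hR).mul hQ
  refine ⟨_, h1, fun v hv => ?_⟩
  simp [hQ' v hv, hR' v hv, hz1]

/-- `∑_{j=1}^n (1+x)^{-j}` -/
def psi (n : ℕ) (x : ℝ) : ℝ := ∑ j ∈ Finset.range n, ((1 + x)⁻¹) ^ (j + 1)

theorem mul_psi (n : ℕ) {x : ℝ} (hx : 0 ≤ x) : x * psi n x = 1 - ((1 + x)⁻¹) ^ n := by
  unfold psi
  induction n with
  | zero => simp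
  | succ m ih =>
    rw [Finset.sum_range_succ, mul_add, ih]
    have h : (1 + x) ≠ 0 := by positivity
    have e : x * ((1 + x)⁻¹) ^ (m + 1) = ((1 + x)⁻¹) ^ m - ((1 + x)⁻¹) ^ (m + 1) := by
      rw [pow_succ]
      field_simp
      ring
    rw [e]
    ring

theorem contDiffOn_psi (n : ℕ) : ContDiffOn ℝ ∞ (psi n) {x | 1 + x ≠ 0} := by
  intro x hx
  have h1 : ContDiffAt ℝ ∞ (fun x : ℝ => (1 + x)⁻¹) x :=
    (contDiffAt_const.add contDiffAt_id).inv hx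
  have h2 : ContDiffAt ℝ ∞ (psi n) x := ContDiffAt.sum fun j _ => h1.pow (j + 1)
  exact h2.contDiffWithinAt

theorem differentiableAt_psi (n : ℕ) {x : ℝ} (hx : 0 ≤ x) : DifferentiableAt ℝ (psi n) x := by
  have h : ContDiffAt ℝ ∞ (psi n) x := (contDiffOn_psi n).contDiffAt
    (IsOpen.mem_nhds (isOpen_ne_fun (by fun_prop) (by fun_prop)) (by
      show 1 + x ≠ 0
      positivity))
  exact h.differentiableAt (by simp)

/-- the derivative of `1 - (1+x)^{-n}` in terms of `psi` -/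
theorem deriv_psi (n : ℕ) {x : ℝ} (hx : 0 ≤ x) :
    psi n x + x * deriv (psi n) x = n * ((1 + x)⁻¹) ^ (n + 1) := by
  have h1 : HasDerivAt (fun x => x * psi n x) (1 * psi n x + x * deriv (psi n) x) x :=
    (hasDerivAt_id x).mul (differentiableAt_psi n hx).hasDerivAt
  have h0 : (1 + x) ≠ 0 := by positivity
  have h2 : HasDerivAt (fun x : ℝ => 1 - ((1 + x)⁻¹) ^ n) (n * ((1 + x)⁻¹) ^ (n + 1)) x := by
    have h3 : HasDerivAt (fun x : ℝ => (1 + x)⁻¹) (-1 / (1 + x) ^ 2) x :=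
      ((hasDerivAt_id x).const_add 1).inv h0
    have h4 := (h3.pow n).const_sub 1
    refine h4.congr_deriv ?_
    rcases n with _ | m
    · simp
    · simp only [Nat.add_sub_cancel]
      rw [pow_succ _ (m + 1), pow_succ _ m]
      field_simp
  have h3 : (fun x => x * psi n x) =ᶠ[𝓝[≥] x] fun x => 1 - ((1 + x)⁻¹) ^ n := by
    filter_upwards [self_mem_nhdsWithin] with y hy
    exact mul_psi n (hx.trans hy)
  have h4 := (h1.hasDerivWithinAt (s := Ici x))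
  have h5 := (h2.hasDerivWithinAt (s := Ici x)).congr_of_eventuallyEq h3 (mul_psi n hx)
  have h6 := (uniqueDiffWithinAt_Ici x).eq_deriv _ h4 h5
  rw [one_mul] at h6
  exact h6

/-- homogeneous holomorphic functions -/
structure Hom (k : ℕ) (F : C3 → ℂ) : Prop where
  pos : 1 ≤ k
  smooth : ContDiff ℝ ∞ F
  homogeneous : ∀ (c : ℂ) (z : C3), F (c • z) = c ^ k * F z
  linear : ∀ (z v : C3) (c : ℂ), fderiv ℝ F z (c • v) = c * fderiv ℝ F z v

theorem IsCurve.fderiv_eq {k : ℕ} {F : C3 → ℂ} (h : IsCurve k F) (z v : C3) :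
    fderiv ℝ F z v = fderiv ℂ F z v := by
  have h1 : DifferentiableAt ℂ F z := h.holomorphic.differentiable (by simp) z
  rw [h1.fderiv_restrictScalars ℝ]
  rfl

theorem IsCurve.hom {k : ℕ} {F : C3 → ℂ} (h : IsCurve k F) : Hom k F :=
  ⟨h.pos, h.holomorphic.restrict_scalars ℝ, h.homogeneous, fun z v c => by
    rw [h.fderiv_eq, h.fderiv_eq, map_smul, smul_eq_mul]⟩

theorem Hom.zero {k : ℕ} {F : C3 → ℂ} (h : Hom k F) : F 0 = 0 := by
  have := h.homogeneous 0 0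
  have hk : k ≠ 0 := by
    have := h.pos
    omega
  rwa [zero_smul, zero_pow hk, zero_mul] at this

theorem Hom.hasFDerivAt {k : ℕ} {F : C3 → ℂ} (h : Hom k F) (z : C3) :
    HasFDerivAt F (fderiv ℝ F z) z := (h.smooth.differentiable (by simp) z).hasFDerivAt

theorem Hom.fderiv_scale {k : ℕ} {F : C3 → ℂ} (h : Hom k F) (c : ℂ) (z v : C3) :
    fderiv ℝ F (c • z) (c • v) = c ^ k * fderiv ℝ F z v := by
  have h1 : HasFDerivAt (fun y => F (mulC c y)) ((fderiv ℝ F (c • z)).comp (mulC c)) z :=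
    (h.hasFDerivAt (c • z)).comp z (mulC c).hasFDerivAt
  have h2 : (fun y => F (mulC c y)) = fun y => c ^ k * F y := by
    funext y
    rw [mulC_apply, h.homogeneous]
  rw [h2] at h1
  have h3 : HasFDerivAt (fun y => c ^ k * F y) (c ^ k • fderiv ℝ F z) z :=
    (h.hasFDerivAt z).const_mul (c ^ k)
  have h4 := congrArg (fun L : C3 →L[ℝ] ℂ => L v) (h1.unique h3)
  exact h4

theorem Hom.euler {k : ℕ} {F : C3 → ℂ} (h : Hom k F) (c : ℂ) (z : C3) :
    fderiv ℝ F z (c • z) = k * c * F z := by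
  have hc1 : HasDerivAt (fun t : ℝ => (1 + (t : ℂ) * c)) c 0 := by
    have := ((Complex.ofRealCLM.hasDerivAt (x := (0 : ℝ))).mul_const c).const_add 1
    simpa using this
  have h1 : HasDerivAt (fun t : ℝ => F ((1 + (t : ℂ) * c) • z)) (fderiv ℝ F z (c • z)) 0 := by
    have h2 : HasFDerivAt F (fderiv ℝ F z) ((fun t : ℝ => (1 + (t : ℂ) * c) • z) 0) := by
      simpa using h.hasFDerivAt z
    exact h2.comp_hasDerivAt 0 (hc1.smul_const z)
  have h3 : HasDerivAt (fun t : ℝ => (1 + (t : ℂ) * c) ^ k * F z) (k * c * F z) 0 := by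
    have h4 := (hc1.pow k).mul_const (F z)
    simpa using h4
  have h5 : (fun t : ℝ => F ((1 + (t : ℂ) * c) • z)) =
      fun t : ℝ => (1 + (t : ℂ) * c) ^ k * F z := by
    funext t
    exact h.homogeneous _ _
  rw [h5] at h1
  exact h1.unique h3

theorem Hom.al_scale {k : ℕ} {F : C3 → ℂ} (h : Hom k F) {c : ℂ} (hc : c ≠ 0) (z : C3) :
    al k F (c • z) = al k F z := by
  unfold al
  have hc' : ‖c‖ ≠ 0 := norm_ne_zero_iff.2 hc
  rw [h.homogeneous, norm_mul, norm_pow, norm_smul, mul_pow, mul_pow, mul_pow, mul_inv]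
  have e : (‖c‖ ^ k) ^ 2 = (‖c‖ ^ 2) ^ k := by
    rw [← pow_mul, ← pow_mul, mul_comm]
  rw [e]
  have h0 : (‖c‖ ^ 2) ^ k ≠ 0 := by positivity
  field_simp

/-- the coefficient of `tau` -/
def f1 (n k : ℕ) (F : C3 → ℂ) (z : C3) : ℝ :=
  -(2 : ℝ)⁻¹ * (al k F z * psi n (al k F z)) * ((‖z‖ ^ 2) ^ 1)⁻¹

/-- the coefficient of `sig` -/
def f2 (n k : ℕ) (F : C3 → ℂ) (z : C3) : ℝ :=
  (2 * (k : ℝ))⁻¹ * psi n (al k F z) * ((‖z‖ ^ 2) ^ k)⁻¹

/-- the one-form `(1/k) ψ(α) dᶜα` (up to a factor) -/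
def lam (n k : ℕ) (F : C3 → ℂ) : Form 1 :=
  cov fun z => f1 n k F z • tau z + f2 n k F z • sig F z

/-- the potential of the Fubini-Study form -/
def lam0 : Form 1 := cov fun z => ((2 : ℝ)⁻¹ * ((‖z‖ ^ 2) ^ 1)⁻¹) • tau z

theorem contDiffOn_psi_al (n : ℕ) {k : ℕ} {F : C3 → ℂ} (hF : ContDiff ℝ ∞ F) :
    ContDiffOn ℝ ∞ (fun z => psi n (al k F z)) Dom :=
  (contDiffOn_psi n).comp (contDiffOn_al hF) fun z _ => by
    have := al_nonneg k F z
    show 1 + al k F z ≠ 0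
    positivity

theorem contDiffOn_f1 (n : ℕ) {k : ℕ} {F : C3 → ℂ} (hF : ContDiff ℝ ∞ F) :
    ContDiffOn ℝ ∞ (f1 n k F) Dom :=
  (contDiffOn_const.mul ((contDiffOn_al hF).mul (contDiffOn_psi_al n hF))).mul (contDiffOn_q 1)

theorem contDiffOn_f2 (n : ℕ) {k : ℕ} {F : C3 → ℂ} (hF : ContDiff ℝ ∞ F) :
    ContDiffOn ℝ ∞ (f2 n k F) Dom :=
  (contDiffOn_const.mul (contDiffOn_psi_al n hF)).mul (contDiffOn_q k)

theorem tau_scale (c : ℂ) (z v : C3) : tau (c • z) (c • v) = ‖c‖ ^ 2 * tau z v := by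
  rw [tau_apply, tau_apply, inner_im, inner_im, inner_smul_left, inner_smul_right, ← mul_assoc,
    Complex.conj_mul', ← Complex.ofReal_pow, Complex.im_ofReal_mul]

theorem sig_scale {k : ℕ} {F : C3 → ℂ} (h : Hom k F) (c : ℂ) (z v : C3) :
    sig F (c • z) (c • v) = (‖c‖ ^ 2) ^ k * sig F z v := by
  rw [sig_apply, sig_apply, h.fderiv_scale, h.homogeneous]
  have e1 : ∀ a b : ℂ, inner ℝ (Complex.I * (c ^ k * a)) (c ^ k * b) =
      ((starRingEnd ℂ (c ^ k) * c ^ k) * (b * starRingEnd ℂ (Complex.I * a))).re := by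
    intro a b
    rw [Complex.inner]
    congr 1
    simp only [map_mul]
    ring
  rw [e1, Complex.conj_mul', ← Complex.ofReal_pow, Complex.re_ofReal_mul, Complex.inner, norm_pow]
  congr 1
  rw [← pow_mul, ← pow_mul, mul_comm]

theorem f1_scale {n k : ℕ} {F : C3 → ℂ} (h : Hom k F) {c : ℂ} (hc : c ≠ 0) (z : C3) :
    f1 n k F (c • z) = f1 n k F z * (‖c‖ ^ 2)⁻¹ := by
  unfold f1
  rw [h.al_scale hc, norm_smul, mul_pow, pow_one, pow_one, mul_inv]
  ring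

theorem f2_scale {n k : ℕ} {F : C3 → ℂ} (h : Hom k F) {c : ℂ} (hc : c ≠ 0) (z : C3) :
    f2 n k F (c • z) = f2 n k F z * ((‖c‖ ^ 2) ^ k)⁻¹ := by
  unfold f2
  rw [h.al_scale hc, norm_smul, mul_pow, mul_pow, mul_inv]
  ring

theorem tau_vertical (c : ℂ) (z : C3) : tau z (c • z) = ‖z‖ ^ 2 * c.im := by
  rw [tau_apply, inner_im, inner_smul_right, inner_self_eq_norm_sq_to_K]
  have : (c * ((‖z‖ : ℝ) : ℂ) ^ 2).im = ‖z‖ ^ 2 * c.im := by
    rw [← Complex.ofReal_pow, mul_comm, Complex.im_ofReal_mul]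
  exact this

theorem sig_vertical {k : ℕ} {F : C3 → ℂ} (h : Hom k F) (c : ℂ) (z : C3) :
    sig F z (c • z) = k * ‖F z‖ ^ 2 * c.im := by
  rw [sig_apply, h.euler, Complex.inner]
  have e : (k * c * F z) * starRingEnd ℂ (Complex.I * F z) =
      -((k * (starRingEnd ℂ (F z) * F z)) * (Complex.I * c)) := by
    simp only [map_mul, Complex.conj_I]
    ring
  rw [e, Complex.conj_mul']
  have e2 : ((k : ℂ) * (‖F z‖ : ℂ) ^ 2) = ((k * ‖F z‖ ^ 2 : ℝ) : ℂ) := by push_cast; rfl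
  rw [e2, Complex.neg_re, Complex.re_ofReal_mul]
  simp

theorem lam_apply (n k : ℕ) (F : C3 → ℂ) (z : C3) (v : Fin 1 → C3) :
    lam n k F z v = f1 n k F z * tau z (v 0) + f2 n k F z * sig F z (v 0) := rfl

theorem isForm_lam (n : ℕ) {k : ℕ} {F : C3 → ℂ} (h : Hom k F) : IsForm 1 (lam n k F) := by
  refine ⟨?_, ?_, ?_, ?_⟩
  · apply contDiffOn_cov
    exact ((contDiffOn_f1 n h.smooth).smul tau.contDiff.contDiffOn).add
      ((contDiffOn_f2 n h.smooth).smul (contDiff_sig h.smooth).contDiffOn)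
  · intro c z v hc hz
    have hc' : ‖c‖ ≠ 0 := norm_ne_zero_iff.2 hc
    rw [lam_apply, lam_apply, tau_scale, sig_scale h, f1_scale h hc, f2_scale h hc]
    have e1 : (‖c‖ ^ 2)⁻¹ * ‖c‖ ^ 2 = 1 := inv_mul_cancel₀ (by positivity)
    have e2 : ((‖c‖ ^ 2) ^ k)⁻¹ * (‖c‖ ^ 2) ^ k = 1 := inv_mul_cancel₀ (by positivity)
    linear_combination (f1 n k F z * tau z (v 0)) * e1 + (f2 n k F z * sig F z (v 0)) * e2
  · intro z v i c hz hv
    have hi : i = 0 := Subsingleton.elim _ _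
    rw [hi] at hv
    rw [lam_apply, hv, tau_vertical, sig_vertical h]
    unfold f1 f2 al
    have hz' : ‖z‖ ≠ 0 := norm_ne_zero_iff.2 hz
    have hk : (k : ℝ) ≠ 0 := by
      have := h.pos
      positivity
    field_simp
    ring
  · ext v
    rw [lam_apply]
    have e1 : tau 0 = 0 := map_zero _
    have e2 : sig F 0 = 0 := by
      unfold sig
      rw [h.zero, mul_zero, map_zero, ContinuousLinearMap.zero_comp]
    rw [e1, e2]
    simp

theorem lam0_apply (z : C3) (v : Fin 1 → C3) :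
    lam0 z v = (2 : ℝ)⁻¹ * ((‖z‖ ^ 2) ^ 1)⁻¹ * tau z (v 0) := rfl

theorem isConn_lam0 : IsConn lam0 := by
  refine ⟨?_, ?_, ?_⟩
  · apply contDiffOn_cov
    exact (contDiffOn_const.mul (contDiffOn_q 1)).smul tau.contDiff.contDiffOn
  · intro c z v hc hz
    have hc' : ‖c‖ ≠ 0 := norm_ne_zero_iff.2 hc
    rw [lam0_apply, lam0_apply, tau_scale, norm_smul]
    field_simp
  · refine ⟨fun c => (2 : ℝ)⁻¹ * c.im, fun z c hz => ?_⟩
    have hz' : ‖z‖ ≠ 0 := norm_ne_zero_iff.2 hz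
    rw [lam0_apply]
    show _ * tau z (c • z) = _
    rw [tau_vertical]
    field_simp

theorem hasFDerivAt_q1 {z : C3} (hz : z ≠ 0) :
    ∃ Q : C3 →L[ℝ] ℝ, HasFDerivAt (fun z : C3 => (2 : ℝ)⁻¹ * ((‖z‖ ^ 2) ^ 1)⁻¹) Q z ∧
      ∀ v, Q v = -inner ℝ z v / ‖z‖ ^ 4 := by
  have hz' : ‖z‖ ^ 2 ≠ 0 := pow_ne_zero _ (norm_ne_zero_iff.2 hz)
  have h1 : HasFDerivAt (fun z : C3 => ‖z‖ ^ 2) _ z := (hasFDerivAt_id z).norm_sq
  have h2 : HasDerivAt (fun x : ℝ => (2 : ℝ)⁻¹ * (x ^ 1)⁻¹) ((2 : ℝ)⁻¹ * (-1 / (‖z‖ ^ 2) ^ 2))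
      (‖z‖ ^ 2) := by
    have h3 := ((hasDerivAt_id (‖z‖ ^ 2)).inv hz').const_mul (2 : ℝ)⁻¹
    simpa using h3
  have h3 := h2.comp_hasFDerivAt z h1
  refine ⟨_, h3, fun v => ?_⟩
  have e : (‖z‖ ^ 2) ^ 2 = ‖z‖ ^ 4 := by ring
  simp [e]
  ring

theorem dlam0 {z : C3} (hz : z ≠ 0) (v w : C3) : extDeriv lam0 z ![v, w] = fs z v w := by
  obtain ⟨Q, hQ, hQ'⟩ := hasFDerivAt_q1 hz
  unfold lam0
  rw [extDeriv_smul_cov hQ tau.hasFDerivAt, hQ', hQ', tau_apply, tau_apply, tau_apply, tau_apply,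
    inner_J_swap v w]
  unfold fs
  have hz' : ‖z‖ ≠ 0 := norm_ne_zero_iff.2 hz
  field_simp
  ring

/-- the exterior derivative of `lam` at a unit vector, on horizontal vectors -/
theorem dlam (n : ℕ) {k : ℕ} {F : C3 → ℂ} (h : Hom k F) {z : C3} (hz1 : ‖z‖ = 1) {v w : C3}
    (hv : inner ℂ z v = 0) (hw : inner ℂ z w = 0) :
    extDeriv (lam n k F) z ![v, w] = (((1 + al k F z)⁻¹) ^ n - 1) * inner ℝ (J v) w +
      (n / k * ((1 + al k F z)⁻¹) ^ (n + 1)) *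
        inner ℝ (Complex.I * fderiv ℝ F z v) (fderiv ℝ F z w) := by
  have hz : z ≠ 0 := by
    intro h0
    rw [h0, norm_zero] at hz1
    exact zero_ne_one hz1
  have ha := al_nonneg k F z
  have hv1 : inner ℝ z v = 0 := by rw [inner_re, hv, Complex.zero_re]
  have hw1 : inner ℝ z w = 0 := by rw [inner_re, hw, Complex.zero_re]
  have hv2 : tau z v = 0 := by rw [tau_apply, inner_im, hv, Complex.zero_im]
  have hw2 : tau z w = 0 := by rw [tau_apply, inner_im, hw, Complex.zero_im]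
  -- derivatives of the coefficients
  have hpsi := (differentiableAt_psi n ha).hasDerivAt
  obtain ⟨Q1, hQ1, -⟩ := hasFDerivAt_fal k 1 h.smooth hz hz1
    (P := fun x => -(2 : ℝ)⁻¹ * (x * psi n x)) (((hasDerivAt_id _).mul hpsi).const_mul _)
  obtain ⟨Q2, hQ2, hQ2'⟩ := hasFDerivAt_fal k k h.smooth hz hz1
    (P := fun x => (2 * (k : ℝ))⁻¹ * psi n x) (hpsi.const_mul _)
  obtain ⟨S, hS, hS'⟩ := hasFDerivAt_sig h.smooth z
  have e1 : HasFDerivAt (fun z => f1 n k F z • tau z + f2 n k F z • sig F z)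
      (f1 n k F z • tau + Q1.smulRight (tau z) + (f2 n k F z • S + Q2.smulRight (sig F z))) z :=
    (hQ1.fun_smul tau.hasFDerivAt).add (hQ2.fun_smul hS)
  unfold lam
  rw [extDeriv_cov e1]
  have e2 := hS' v w
  have e3 := deriv_psi n ha
  have e4 := mul_psi n ha
  have e5 : al k F z = ‖F z‖ ^ 2 := by
    unfold al
    rw [hz1]
    simp
  have hk : (k : ℝ) ≠ 0 := by
    have := h.pos
    positivity
  simp only [_root_.add_apply, _root_.smul_apply, ContinuousLinearMap.smulRight_apply,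
    smul_eq_mul, hv2, hw2, hQ2' v hv1, hQ2' w hw1, mul_zero, add_zero]
  rw [tau_apply, tau_apply, inner_J_swap v w, sig_apply, sig_apply]
  have e6 : inner ℝ (F z) (fderiv ℝ F z v) * inner ℝ (Complex.I * F z) (fderiv ℝ F z w) -
      inner ℝ (F z) (fderiv ℝ F z w) * inner ℝ (Complex.I * F z) (fderiv ℝ F z v) =
      al k F z * inner ℝ (Complex.I * fderiv ℝ F z v) (fderiv ℝ F z w) := by
    rw [e5, ← Complex.normSq_eq_norm_sq, Complex.normSq_apply]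
    simp only [Complex.inner, map_mul, Complex.conj_I, Complex.mul_re, Complex.mul_im,
      Complex.conj_re, Complex.conj_im, Complex.neg_re, Complex.neg_im, Complex.I_re,
      Complex.I_im]
    ring
  have e7 : f1 n k F z = -(2 : ℝ)⁻¹ * (1 - ((1 + al k F z)⁻¹) ^ n) := by
    unfold f1
    rw [hz1, e4]
    simp
  have e8 : f2 n k F z = (2 * (k : ℝ))⁻¹ * psi n (al k F z) := by
    unfold f2
    rw [hz1]
    simp
  rw [e7, e8]
  have e9 : n / k * ((1 + al k F z)⁻¹) ^ (n + 1) = (k : ℝ)⁻¹ * (psi n (al k F z) +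
      al k F z * deriv (psi n) (al k F z)) := by
    rw [e3]
    field_simp
  rw [e9]
  have hk2 : (2 * (k : ℝ))⁻¹ = (2 : ℝ)⁻¹ * (k : ℝ)⁻¹ := by rw [mul_inv]
  rw [hk2]
  linear_combination ((2 : ℝ)⁻¹ * (k : ℝ)⁻¹ * psi n (al k F z)) * e2 +
    ((k : ℝ)⁻¹ * deriv (psi n) (al k F z)) * e6

end Pool.Agent.H820.PC
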