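import Pool.Agent.H820.PC.Wedge

/-!
The estimate for one curve.
-/

set_option autoImplicit false

open Set Topology Filter
open scoped ContDiff

noncomputable section

namespace Pool.Agent.H820.PC

theorem continuous_J : Continuous J := continuous_const_smul Complex.I

theorem contOn_eval (Ω : TwoForm) {X : Type} [TopologicalSpace X] {S : Set X} {f g h : X → C3}
    (hf : ContinuousOn f S) (hg : ContinuousOn g S) (hh : ContinuousOn h S)
    (h0 : ∀ x ∈ S, f x ≠ 0) : ContinuousOn (fun x => Ω.1 (f x) ![g x, h x]) S := by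
  have h1 : ContinuousOn (fun x => Ω.1 (f x)) S := Ω.2.smooth.continuousOn.comp hf h0
  have h2 : ContinuousOn (fun x => ![g x, h x]) S := by
    rw [continuousOn_pi]
    intro i
    fin_cases i
    · exact hg
    · exact hh
  exact h1.eval h2

/-- `F` multiplied by a constant -/
theorem Hom.scale {k : ℕ} {F : C3 → ℂ} (h : Hom k F) (l : ℂ) : Hom k (fun z => l * F z) := by
  refine ⟨h.pos, contDiff_const.mul h.smooth, fun c z => ?_, fun z v c => ?_⟩
  · rw [h.homogeneous]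
    ring
  · have e : HasFDerivAt (fun z => l * F z) (l • fderiv ℝ F z) z := (h.hasFDerivAt z).const_mul l
    rw [e.fderiv]
    show l * fderiv ℝ F z (c • v) = c * (l * fderiv ℝ F z v)
    rw [h.linear]
    ring

theorem fderiv_scale {k : ℕ} {F : C3 → ℂ} (h : Hom k F) (l : ℂ) (z v : C3) :
    fderiv ℝ (fun z => l * F z) z v = l * fderiv ℝ F z v := by
  have e : HasFDerivAt (fun z => l * F z) (l • fderiv ℝ F z) z := (h.hasFDerivAt z).const_mul l
  rw [e.fderiv]
  rfl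

theorem al_mul (k : ℕ) (F : C3 → ℂ) (l : ℂ) (z : C3) :
    al k (fun z => l * F z) z = ‖l‖ ^ 2 * al k F z := by
  unfold al
  rw [norm_mul]
  ring

theorem al_eq_zero {k : ℕ} {F : C3 → ℂ} {z : C3} (hz : z ≠ 0) : al k F z = 0 ↔ F z = 0 := by
  unfold al
  have : ((‖z‖ ^ 2) ^ k)⁻¹ ≠ 0 := by
    have : ‖z‖ ≠ 0 := norm_ne_zero_iff.2 hz
    positivity
  simp [this]

/-- the value on the first complex line of the frame -/
def En (Ω : TwoForm) (p : C3 × C3 × C3) : ℝ := Ω.1 p.1 ![p.2.1, J p.2.1]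

/-- the sum of the values on the two complex lines of the frame -/
def Tn (Ω : TwoForm) (p : C3 × C3 × C3) : ℝ := En Ω p + Ω.1 p.1 ![p.2.2, J p.2.2]

/-- the normal derivative -/
def Dn (F : C3 → ℂ) (p : C3 × C3 × C3) : ℝ := ‖fderiv ℝ F p.1 p.2.2‖ ^ 2

theorem Fr_ne {p : C3 × C3 × C3} (hp : p ∈ Fr) : p.1 ≠ 0 := IsFrame.z0 hp

theorem contOn_En (Ω : TwoForm) : ContinuousOn (En Ω) Fr :=
  contOn_eval Ω (f := fun p : C3 × C3 × C3 => p.1) (g := fun p => p.2.1)
    (h := fun p => J p.2.1) (by fun_prop) (by fun_prop)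
    (continuous_J.comp (by fun_prop)).continuousOn fun _ hp => Fr_ne hp

theorem contOn_Tn (Ω : TwoForm) : ContinuousOn (Tn Ω) Fr :=
  (contOn_En Ω).add
    (contOn_eval Ω (f := fun p : C3 × C3 × C3 => p.1) (g := fun p => p.2.2)
      (h := fun p => J p.2.2) (by fun_prop) (by fun_prop)
      (continuous_J.comp (by fun_prop)).continuousOn fun _ hp => Fr_ne hp)

theorem cont_fderiv {F : C3 → ℂ} (hF : ContDiff ℝ ∞ F) : Continuous (fderiv ℝ F) :=
  (hF.fderiv_right (m := ∞) (by norm_cast)).continuous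

theorem cont_Dn {F : C3 → ℂ} (hF : ContDiff ℝ ∞ F) : Continuous (Dn F) := by
  have h1 := cont_fderiv hF
  unfold Dn
  fun_prop

theorem contOn_al {k : ℕ} {F : C3 → ℂ} (hF : ContDiff ℝ ∞ F) :
    ContinuousOn (fun p : C3 × C3 × C3 => al k F p.1) Fr :=
  (contDiffOn_al hF).continuousOn.comp continuous_fst.continuousOn fun _ hp => Fr_ne hp

theorem Dn_nonneg (F : C3 → ℂ) (p : C3 × C3 × C3) : 0 ≤ Dn F p := by
  unfold Dn
  positivity

/-- the compact set of the adapted frames -/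
def AFr (F : C3 → ℂ) : Set (C3 × C3 × C3) := Fr ∩ {p | fderiv ℝ F p.1 p.2.1 = 0}

theorem isCompact_AFr {F : C3 → ℂ} (hF : ContDiff ℝ ∞ F) : IsCompact (AFr F) := by
  have h1 := cont_fderiv hF
  exact isCompact_Fr.inter_right (isClosed_eq (by fun_prop) continuous_const)

theorem near_curve {Ω : TwoForm} {k : ℕ} {F : C3 → ℂ} (hF : IsCurve k F) (hP : PositiveOn Ω F) :
    ∃ m c d : ℝ, 0 ≤ m ∧ 0 < c ∧ 0 < d ∧ ∀ p ∈ AFr F, al k F p.1 ≤ d →
      0 < En Ω p ∧ c ≤ Tn Ω p + m * (En Ω p * Dn F p) := by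
  have hs := hF.hom.smooth
  refine (isCompact_AFr hs).induction_on (p := fun S => ∃ m c d : ℝ, 0 ≤ m ∧ 0 < c ∧ 0 < d ∧
    ∀ p ∈ S, al k F p.1 ≤ d → 0 < En Ω p ∧ c ≤ Tn Ω p + m * (En Ω p * Dn F p))
    ?_ ?_ ?_ ?_
  · exact ⟨0, 1, 1, le_rfl, one_pos, one_pos, fun p hp => absurd hp (by simp)⟩
  · rintro s t hst ⟨m, c, d, h1, h2, h3, h4⟩
    exact ⟨m, c, d, h1, h2, h3, fun p hp => h4 p (hst hp)⟩
  · rintro s t ⟨m, c, d, h1, h2, h3, h4⟩ ⟨m', c', d', h1', h2', h3', h4'⟩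
    refine ⟨max m m', min c c', min d d', le_max_of_le_left h1, lt_min h2 h2', lt_min h3 h3',
      fun p hp hd => ?_⟩
    rcases hp with hp | hp
    · obtain ⟨k1, k2⟩ := h4 p hp (hd.trans (min_le_left _ _))
      refine ⟨k1, (min_le_left _ _).trans (k2.trans ?_)⟩
      have := mul_le_mul_of_nonneg_right (le_max_left m m') (mul_nonneg k1.le (Dn_nonneg F p))
      linarith
    · obtain ⟨k1, k2⟩ := h4' p hp (hd.trans (min_le_right _ _))
      refine ⟨k1, (min_le_right _ _).trans (k2.trans ?_)⟩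
      have := mul_le_mul_of_nonneg_right (le_max_right m m') (mul_nonneg k1.le (Dn_nonneg F p))
      linarith
  · intro p hp
    have hE := (contOn_En Ω).mono (inter_subset_left : AFr F ⊆ Fr) p hp
    have hT := (contOn_Tn Ω).mono (inter_subset_left : AFr F ⊆ Fr) p hp
    have hA := (contOn_al (k := k) hs).mono (inter_subset_left : AFr F ⊆ Fr) p hp
    have hD := (cont_Dn hs).continuousWithinAt (s := AFr F) (x := p)
    obtain ⟨hpF, hpe⟩ := hp
    have hpe : fderiv ℝ F p.1 p.2.1 = 0 := hpe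
    have hfr : IsFrame p.1 p.2.1 p.2.2 := hpF
    have hz : p.1 ≠ 0 := Fr_ne hpF
    rcases (al_nonneg k F p.1).eq_or_lt with h0 | h0
    · -- a point of the curve
      have hFz : F p.1 = 0 := (al_eq_zero hz).1 h0.symm
      have hEp : 0 < En Ω p := hP p.1 p.2.1 hz hFz (by rw [← hF.fderiv_eq, hpe])
        fun c => hfr.not_vertical' c
      obtain ⟨m, hm, hm'⟩ : ∃ m : ℝ, 0 ≤ m ∧ 0 < Tn Ω p + m * (En Ω p * Dn F p) := by
        rcases (Dn_nonneg F p).eq_or_lt with hD0 | hD0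
        · have hn : fderiv ℝ F p.1 p.2.2 = 0 := by
            unfold Dn at hD0
            have : ‖fderiv ℝ F p.1 p.2.2‖ = 0 := by
              apply pow_eq_zero_iff (two_ne_zero) |>.1 hD0.symm
            exact norm_eq_zero.1 this
          have hEn : 0 < Ω.1 p.1 ![p.2.2, J p.2.2] := hP p.1 p.2.2 hz hFz
            (by rw [← hF.fderiv_eq, hn]) fun c => hfr.swap.not_vertical' c
          refine ⟨0, le_rfl, ?_⟩
          unfold Tn
          linarith
        · have hED : 0 < En Ω p * Dn F p := mul_pos hEp hD0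
          refine ⟨(|Tn Ω p| + 1) / (En Ω p * Dn F p), by positivity, ?_⟩
          rw [div_mul_cancel₀ _ hED.ne']
          have := neg_abs_le (Tn Ω p)
          linarith
      have hcont : ContinuousWithinAt (fun p => Tn Ω p + m * (En Ω p * Dn F p)) (AFr F) p :=
        hT.add (continuousWithinAt_const.mul (hE.mul hD))
      refine ⟨{q | 0 < En Ω q ∧ (Tn Ω p + m * (En Ω p * Dn F p)) / 2 <
        Tn Ω q + m * (En Ω q * Dn F q)}, ?_, m, (Tn Ω p + m * (En Ω p * Dn F p)) / 2, 1, hm,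
        half_pos hm', one_pos, fun q hq _ => ⟨hq.1, hq.2.le⟩⟩
      exact (hE.eventually (lt_mem_nhds hEp)).and
        (hcont.eventually (lt_mem_nhds (half_lt_self hm')))
    · refine ⟨{q | al k F p.1 / 2 < al k F q.1}, ?_, 0, 1, al k F p.1 / 2, le_rfl, one_pos,
        half_pos h0, fun q hq hq' => absurd hq' (not_le.2 hq)⟩
      exact hA.eventually (lt_mem_nhds (half_lt_self h0))

theorem one_curve {Ω : TwoForm} {k : ℕ} {F : C3 → ℂ} (hF : IsCurve k F) (hP : PositiveOn Ω F) :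
    ∃ (G : C3 → ℂ) (hG : Hom k G) (c C : ℝ) (N₀ : ℕ), 0 < c ∧ 0 ≤ C ∧
      (∀ z, F z = 0 → G z = 0) ∧ ∀ N, N₀ ≤ N → ∀ z e n, IsFrame z e n →
        (al k G z ≤ 1 → ((1 + al k G z)⁻¹) ^ N * c ≤ wd (Ω.1 z) ((kap N hG).1 z) e n) ∧
        -(((1 + al k G z)⁻¹) ^ N * (C * (1 + N))) ≤ wd (Ω.1 z) ((kap N hG).1 z) e n := by
  obtain ⟨m, c, d, hm, hc, hd, hmain⟩ := near_curve hF hP
  have hH := hF.hom
  have hs := hH.smooth
  have hk : (0 : ℝ) < k := by
    have := hF.pos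
    positivity
  -- the scaling
  set l : ℝ := (Real.sqrt d)⁻¹ with hl
  have hl2 : ‖(l : ℂ)‖ ^ 2 = d⁻¹ := by
    rw [Complex.norm_real, hl, norm_inv, inv_pow, Real.norm_eq_abs, sq_abs, Real.sq_sqrt hd.le]
  -- bounds
  obtain ⟨B1, hB1⟩ := isCompact_Fr.exists_bound_of_continuousOn (contOn_Tn Ω)
  obtain ⟨B2, hB2⟩ := isCompact_Fr.exists_bound_of_continuousOn
    ((contOn_En Ω).mul (cont_Dn hs).continuousOn)
  set C : ℝ := max (max B1 0) ((k : ℝ)⁻¹ * (d⁻¹ * (max B2 0))) with hC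
  have hC0 : 0 ≤ C := le_max_of_le_left (le_max_right _ _)
  obtain ⟨N₀, hN₀⟩ := exists_nat_ge (m * (2 * k * d))
  refine ⟨fun z => (l : ℂ) * F z, hH.scale l, c, C, N₀, hc, hC0, fun z hz => by
      show (l : ℂ) * F z = 0
      rw [hz, mul_zero],
    fun N hN z e n hf => ?_⟩
  -- an adapted frame
  obtain ⟨e', n', hf', he'⟩ := exists_frame hf.nz (fderiv ℂ F z)
  rw [wd_frame hf' hf]
  have he1 : fderiv ℝ F z e' = 0 := by rw [hF.fderiv_eq, he']
  have he2 : fderiv ℝ (fun z => (l : ℂ) * F z) z e' = 0 := by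
    rw [fderiv_scale hH, he1, mul_zero]
  rw [wd_kap _ N (hH.scale l) hf' he2]
  have hp : (z, e', n') ∈ AFr F := ⟨hf', he1⟩
  set a : ℝ := al k (fun z => (l : ℂ) * F z) z with ha
  have ha0 : 0 ≤ a := al_nonneg _ _ _
  have ha1 : a = d⁻¹ * al k F z := by rw [ha, al_mul, hl2]
  have hy0 : 0 < (1 + a)⁻¹ := by positivity
  have hy1 : (1 + a)⁻¹ ≤ 1 := inv_le_one_of_one_le₀ (by linarith)
  have hD : ‖fderiv ℝ (fun z => (l : ℂ) * F z) z n'‖ ^ 2 = d⁻¹ * Dn F (z, e', n') := by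
    rw [fderiv_scale hH, norm_mul, mul_pow, hl2]
    rfl
  rw [hD]
  have hyN : 0 < ((1 + a)⁻¹) ^ N := by positivity
  have hD0 := Dn_nonneg F (z, e', n')
  have eT : Ω.1 z ![e', J e'] + Ω.1 z ![n', J n'] = Tn Ω (z, e', n') := rfl
  have eE : Ω.1 z ![e', J e'] = En Ω (z, e', n') := rfl
  rw [eT, eE]
  constructor
  · intro ha2
    apply mul_le_mul_of_nonneg_left _ hyN.le
    have h1 : al k F z ≤ d := by
      rw [ha1] at ha2
      have := mul_le_mul_of_nonneg_left ha2 hd.le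
      rwa [← mul_assoc, mul_inv_cancel₀ hd.ne', one_mul, mul_one] at this
    obtain ⟨h2, h3⟩ := hmain _ hp h1
    refine h3.trans (add_le_add_right ?_ _)
    have h4 : m ≤ N / k * (1 + a)⁻¹ * d⁻¹ := by
      have h5 : (2 : ℝ)⁻¹ ≤ (1 + a)⁻¹ := inv_anti₀ (by positivity) (by linarith)
      have h6 : m ≤ N / k * 2⁻¹ * d⁻¹ := by
        have h7 : m * (2 * k * d) ≤ N := hN₀.trans (by exact_mod_cast hN)
        rw [div_mul_eq_mul_div, div_mul_eq_mul_div, le_div_iff₀ hk]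
        have h8 : m * k = (m * (2 * k * d)) * 2⁻¹ * d⁻¹ := by
          field_simp
        rw [h8]
        gcongr
      refine h6.trans ?_
      gcongr
    have h5 := mul_le_mul_of_nonneg_right h4 (mul_nonneg h2.le hD0)
    calc m * (En Ω (z, e', n') * Dn F (z, e', n')) ≤
        N / k * (1 + a)⁻¹ * d⁻¹ * (En Ω (z, e', n') * Dn F (z, e', n')) := h5
      _ = _ := by ring
  · have h1 : -C ≤ Tn Ω (z, e', n') := by
      have h2 := hB1 (z, e', n') hf'
      rw [Real.norm_eq_abs] at h2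
      have h3 := neg_abs_le (Tn Ω (z, e', n'))
      have h4 : B1 ≤ C := (le_max_left _ _).trans (le_max_left _ _)
      linarith
    have h2 : -(max B2 0) ≤ En Ω (z, e', n') * Dn F (z, e', n') := by
      have h2 := hB2 (z, e', n') hf'
      rw [Real.norm_eq_abs] at h2
      have h3 := neg_abs_le (En Ω (z, e', n') * Dn F (z, e', n'))
      have h4 : B2 ≤ max B2 0 := le_max_left _ _
      have h5 : |En Ω (z, e', n') * Dn F (z, e', n')| ≤ B2 := h2
      linarith
    have h3 : (k : ℝ)⁻¹ * (d⁻¹ * (max B2 0)) ≤ C := le_max_right _ _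
    have h4 : -(C * N) ≤ En Ω (z, e', n') * (N / k * (1 + a)⁻¹ * (d⁻¹ * Dn F (z, e', n'))) := by
      have h5 : En Ω (z, e', n') * (N / k * (1 + a)⁻¹ * (d⁻¹ * Dn F (z, e', n'))) =
          (N * (1 + a)⁻¹) * ((k : ℝ)⁻¹ * (d⁻¹ * (En Ω (z, e', n') * Dn F (z, e', n')))) := by
        rw [div_eq_mul_inv]
        ring
      rw [h5]
      have h6 : -C ≤ (k : ℝ)⁻¹ * (d⁻¹ * (En Ω (z, e', n') * Dn F (z, e', n'))) := by
        have h7 : (k : ℝ)⁻¹ * (d⁻¹ * -(max B2 0)) ≤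
            (k : ℝ)⁻¹ * (d⁻¹ * (En Ω (z, e', n') * Dn F (z, e', n'))) := by
          apply mul_le_mul_of_nonneg_left _ (by positivity)
          exact mul_le_mul_of_nonneg_left h2 (by positivity)
        linarith
      have h7 : (N : ℝ) * (1 + a)⁻¹ ≤ N := by
        have := mul_le_mul_of_nonneg_left hy1 (Nat.cast_nonneg (α := ℝ) N)
        linarith
      have h8 : (0 : ℝ) ≤ N * (1 + a)⁻¹ := by positivity
      calc -(C * N) ≤ -(C * (N * (1 + a)⁻¹)) := by
            have := mul_le_mul_of_nonneg_left h7 hC0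
            linarith
        _ = (N * (1 + a)⁻¹) * (-C) := by ring
        _ ≤ _ := mul_le_mul_of_nonneg_left h6 h8
    have h5 : -(C * (1 + N)) ≤ Tn Ω (z, e', n') + En Ω (z, e', n') *
        (N / k * (1 + a)⁻¹ * (d⁻¹ * Dn F (z, e', n'))) := by linarith
    calc -(((1 + a)⁻¹) ^ N * (C * (1 + N))) = ((1 + a)⁻¹) ^ N * (-(C * (1 + N))) := by ring
      _ ≤ _ := mul_le_mul_of_nonneg_left h5 hyN.le

end Pool.Agent.H820.PC
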