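import Pool.Agent.H820.PC.Frames

/-!
Positivity of two-forms on `ℂℙ²` can be tested on unitary frames.
-/

set_option autoImplicit false

open Set Topology
open scoped ContDiff

noncomputable section

namespace Pool.Agent.H820.PC

theorem IsForm.inv2 {Ω : Form 2} (h : IsForm 2 Ω) {c : ℂ} (hc : c ≠ 0) {z : C3} (hz : z ≠ 0)
    (v w : C3) : Ω (c • z) ![c • v, c • w] = Ω z ![v, w] := by
  rw [← h.invariant c z ![v, w] hc hz]
  congr 1
  funext i
  fin_cases i <;> rfl

/-- the unit vector on the line of `z` -/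
theorem norm_unit {z : C3} (hz : z ≠ 0) : ‖((‖z‖ : ℂ)⁻¹) • z‖ = 1 := by
  rw [norm_smul, norm_inv, Complex.norm_real, norm_norm, inv_mul_cancel₀ (norm_ne_zero_iff.2 hz)]

theorem unit_ne {z : C3} (hz : z ≠ 0) : ((‖z‖ : ℂ)⁻¹) ≠ 0 := by
  simpa using hz

theorem wd_scale {A B : Form 2} (h : IsForm 2 A) (h' : IsForm 2 B) {c : ℂ} (hc : c ≠ 0) {z : C3}
    (hz : z ≠ 0) (v w : C3) :
    wd (A z) (B z) v w = wd (A (c • z)) (B (c • z)) (c • v) (c • w) := by
  unfold wd
  simp only [J_csmul, h.inv2 hc hz, h'.inv2 hc hz]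

theorem indep_rel {z v w : C3} (h : LinearIndependent ℂ ![z, v, w]) {p q r : ℂ}
    (hr : p • z + q • v + r • w = 0) : q = 0 ∧ r = 0 := by
  rw [Fintype.linearIndependent_iff] at h
  have := h ![p, q, r] (by
    rw [Fin.sum_univ_three]
    exact hr)
  exact ⟨this 1, this 2⟩

/-- the sign of a wedge product can be tested on unitary frames -/
theorem frame_reduce {z v w : C3} (hi : LinearIndependent ℂ ![z, v, w]) :
    ∃ (c : ℂ) (e n : C3) (r : ℝ), c ≠ 0 ∧ IsFrame (c • z) e n ∧ 0 < r ∧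
      ∀ A B : Form 2, IsForm 2 A → IsForm 2 B →
        wd (A z) (B z) v w = r * wd (A (c • z)) (B (c • z)) e n := by
  have hz : z ≠ 0 := hi.ne_zero 0
  set c : ℂ := (‖z‖ : ℂ)⁻¹ with hc
  have hc0 : c ≠ 0 := unit_ne hz
  have hz1 : ‖c • z‖ = 1 := norm_unit hz
  obtain ⟨e, n, hf, -⟩ := exists_frame hz1 0
  obtain ⟨p, a, b, hv⟩ : ∃ p a b : ℂ, c • v = p • (c • z) + (a • e + b • n) :=
    ⟨_, _, _, by
      rw [← add_assoc]
      exact hf.expand (c • v)⟩
  obtain ⟨p', a', b', hw⟩ : ∃ p a b : ℂ, c • w = p • (c • z) + (a • e + b • n) :=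
    ⟨_, _, _, by
      rw [← add_assoc]
      exact hf.expand (c • w)⟩
  refine ⟨c, e, n, Complex.normSq (a * b' - b * a'), hc0, hf, ?_, ?_⟩
  swap
  · intro A B hA hB
    rw [wd_scale hA hB hc0 hz, hv, hw, (hA.hor hf.z0).wd (hB.hor hf.z0), wd_comb]
  rw [Complex.normSq_pos]
  intro h0
  -- relations between `z`, `v`, `w`
  have r1 : (-(b' * p - b * p')) • z + b' • v + (-b) • w = 0 := by
    have : c • ((-(b' * p - b * p')) • z + b' • v + (-b) • w) = 0 := by
      have e1 : c • ((-(b' * p - b * p')) • z + b' • v + (-b) • w) =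
          (-(b' * p - b * p')) • (c • z) + b' • (c • v) + (-b) • (c • w) := by
        module
      rw [e1, hv, hw]
      have e2 : (-(b' * p - b * p')) • (c • z) + b' • (p • c • z + (a • e + b • n)) +
          (-b) • (p' • c • z + (a' • e + b' • n)) = (a * b' - b * a') • e := by
        module
      rw [e2, h0, zero_smul]
    exact (smul_eq_zero.1 this).resolve_left hc0
  have r2 : (-(a' * p - a * p')) • z + a' • v + (-a) • w = 0 := by
    have : c • ((-(a' * p - a * p')) • z + a' • v + (-a) • w) = 0 := by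
      have e1 : c • ((-(a' * p - a * p')) • z + a' • v + (-a) • w) =
          (-(a' * p - a * p')) • (c • z) + a' • (c • v) + (-a) • (c • w) := by
        module
      rw [e1, hv, hw]
      have e2 : (-(a' * p - a * p')) • (c • z) + a' • (p • c • z + (a • e + b • n)) +
          (-a) • (p' • c • z + (a' • e + b' • n)) = (-(a * b' - b * a')) • n := by
        module
      rw [e2, h0, neg_zero, zero_smul]
    exact (smul_eq_zero.1 this).resolve_left hc0
  obtain ⟨-, hb⟩ := indep_rel hi r1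
  obtain ⟨-, ha⟩ := indep_rel hi r2
  have ha' : a = 0 := by simpa using ha
  have hb' : b = 0 := by simpa using hb
  have r3 : (-p) • z + (1 : ℂ) • v + (0 : ℂ) • w = 0 := by
    have : c • ((-p) • z + (1 : ℂ) • v + (0 : ℂ) • w) = 0 := by
      have e1 : c • ((-p) • z + (1 : ℂ) • v + (0 : ℂ) • w) = (-p) • (c • z) + c • v := by
        module
      rw [e1, hv, ha', hb']
      module
    exact (smul_eq_zero.1 this).resolve_left hc0
  exact one_ne_zero (indep_rel hi r3).1

theorem ne_of_indep {z v w : C3} (hi : LinearIndependent ℂ ![z, v, w]) : z ≠ 0 := hi.ne_zero 0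

theorem IsFrame.indep {z e n : C3} (hf : IsFrame z e n) : LinearIndependent ℂ ![z, e, n] :=
  hf.orthonormal.linearIndependent

theorem wd_pos_of_frames {A B : TwoForm}
    (hp : ∀ z e n, IsFrame z e n → 0 < wd (A.1 z) (B.1 z) e n) (z v w : C3)
    (hi : LinearIndependent ℂ ![z, v, w]) : 0 < wedge (ev A z) (ev B z) v w := by
  obtain ⟨c, e, n, r, hc, hf, hr, h⟩ := frame_reduce hi
  rw [wedge_eq, h A.1 B.1 A.2 B.2]
  exact mul_pos hr (hp _ _ _ hf)

theorem pos_of_frames {Ω : TwoForm}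
    (hp : ∀ z e n, IsFrame z e n → 0 < pfA (Ω.1 z) e n) (z v w : C3)
    (hi : LinearIndependent ℂ ![z, v, w]) : 0 < wedge (ev Ω z) (ev Ω z) v w := by
  apply wd_pos_of_frames (fun z e n hf => ?_) z v w hi
  rw [wd_self]
  have := hp z e n hf
  linarith

theorem frame_pos {Ω : TwoForm} (h : ∀ z v w : C3, LinearIndependent ℂ ![z, v, w] →
    0 < wedge (ev Ω z) (ev Ω z) v w) {z e n : C3} (hf : IsFrame z e n) :
    0 < pfA (Ω.1 z) e n := by
  have := h z e n hf.indep
  rw [wedge_eq, wd_self] at this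
  linarith

theorem exists_frame_of_horizontal {z x : C3} (hz : ‖z‖ = 1) (hx : inner ℂ z x = 0)
    (hx0 : x ≠ 0) : ∃ n : C3, IsFrame z (((‖x‖ : ℂ)⁻¹) • x) n := by
  obtain ⟨n, h1, h2, h3⟩ := exists_unit_orthogonal z (((‖x‖ : ℂ)⁻¹) • x)
  exact ⟨n, hz, norm_unit hx0, h1, by rw [inner_smul_right, hx, mul_zero], h2, h3⟩

theorem bil_csmul_J (A : C3 [⋀^Fin 2]→L[ℝ] ℝ) (c : ℂ) (v : C3) :
    A ![c • v, J (c • v)] = Complex.normSq c * A ![v, J v] := by
  rw [csmul c v]
  simp only [J_add, J_smul, J_J, bil_add_left, bil_add_right, bil_smul_left, bil_smul_right,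
    bil_neg_right, smul_neg, bil_self]
  rw [bil_swap A (J v) v, Complex.normSq_apply]
  ring

theorem lines_of_frames {Ω : Form 2} (h : IsForm 2 Ω)
    (hp : ∀ z e n, IsFrame z e n → 0 < Ω z ![e, J e]) (z v : C3) (hz : z ≠ 0)
    (hv : ∀ c : ℂ, v ≠ c • z) : 0 < Ω z ![v, J v] := by
  set c : ℂ := (‖z‖ : ℂ)⁻¹ with hc
  have hc0 : c ≠ 0 := unit_ne hz
  have hz1 : ‖c • z‖ = 1 := norm_unit hz
  set x : C3 := c • v - inner ℂ (c • z) (c • v) • (c • z) with hx
  have hx1 : inner ℂ (c • z) x = 0 := by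
    have h2 : inner ℂ (c • z) (inner ℂ (c • z) (c • v) • (c • z)) =
        inner ℂ (c • z) (c • v) * inner ℂ (c • z) (c • z) := inner_smul_right _ _ _
    have h3 : inner ℂ (c • z) (c • z) = (1 : ℂ) := by
      rw [inner_self_eq_norm_sq_to_K, hz1]
      norm_num
    rw [hx, inner_sub_right, h2, h3, mul_one, sub_self]
  have hx0 : x ≠ 0 := by
    intro h0
    rw [hx, sub_eq_zero] at h0
    have h2 : v = inner ℂ (c • z) (c • v) • z := by
      have h3 : c • v = c • (inner ℂ (c • z) (c • v) • z) := by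
        rw [smul_comm c (inner ℂ (c • z) (c • v)) z]
        exact h0
      exact (smul_right_injective C3 hc0) h3
    exact hv _ h2
  obtain ⟨n, hf⟩ := exists_frame_of_horizontal hz1 hx1 hx0
  have hpos := hp _ _ _ hf
  have hH : Hor (Ω (c • z)) (c • z) := h.hor hf.z0
  have e1 : Ω z ![v, J v] = Ω (c • z) ![c • v, J (c • v)] := by
    rw [J_csmul, h.inv2 hc0 hz]
  have e2 : c • v = inner ℂ (c • z) (c • v) • (c • z) + x := by
    rw [hx]
    abel
  have e3 : J (c • v) = (Complex.I * inner ℂ (c • z) (c • v)) • (c • z) + J x := by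
    conv_lhs => rw [e2]
    rw [J_add]
    unfold J
    rw [smul_smul]
  rw [e1, e3, hH.add_right, e2, hH.add_left]
  rw [bil_csmul_J] at hpos
  exact (pos_iff_pos_of_mul_pos hpos).1 (by
    rw [Complex.normSq_pos]
    exact unit_ne hx0)

end Pool.Agent.H820.PC
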