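import Pool.Agent.H820.PC.One

/-!
A symplectic form which is positive on algebraic curves through the points at which its wedge
product with a given taming form is not positive has a positive wedge product with some taming
form.
-/

set_option autoImplicit false

open Set Topology Filter
open scoped ContDiff

noncomputable section

namespace Pool.Agent.H820.PC

/-- the wedge product is linear -/
def wdL (A : C3 [⋀^Fin 2]→L[ℝ] ℝ) (z e n : C3) : TwoForm →ₗ[ℝ] ℝ where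
  toFun κ := wd A (κ.1 z) e n
  map_add' a b := by rw [add_at, wd_add_right]
  map_smul' r a := by rw [smul_at, wd_smul_right, smul_eq_mul, RingHom.id_apply]

theorem wdL_apply (A : C3 [⋀^Fin 2]→L[ℝ] ℝ) (z e n : C3) (κ : TwoForm) :
    wdL A z e n κ = wd A (κ.1 z) e n := rfl

/-- the data of a curve, with the estimate -/
structure Data (Ω : TwoForm) where
  k : ℕ
  G : C3 → ℂ
  hG : Hom k G
  c : ℝ
  C : ℝ
  N₀ : ℕ
  hc : 0 < c
  hC : 0 ≤ C
  est : ∀ N, N₀ ≤ N → ∀ z e n, IsFrame z e n →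
        (al k G z ≤ 1 → ((1 + al k G z)⁻¹) ^ N * c ≤ wd (Ω.1 z) ((kap N hG).1 z) e n) ∧
        -(((1 + al k G z)⁻¹) ^ N * (C * (1 + N))) ≤ wd (Ω.1 z) ((kap N hG).1 z) e n

theorem exists_data {Ω : TwoForm} {z : C3} (hz : z ≠ 0) (h : HasCurve Ω z) :
    ∃ D : Data Ω, al D.k D.G z = 0 := by
  obtain ⟨k, F, hF, hFz, hP⟩ := h
  obtain ⟨G, hG, c, C, N₀, h1, h2, h3, h4⟩ := one_curve hF hP
  exact ⟨⟨k, G, hG, c, C, N₀, h1, h2, h4⟩, (al_eq_zero hz).2 (h3 z hFz)⟩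

theorem lower {Ω : TwoForm} (D : Data Ω) {N : ℕ} (hN : D.N₀ ≤ N) {z e n : C3}
    (hf : IsFrame z e n) :
    -(((2 : ℝ)⁻¹) ^ N * (D.C * (1 + N))) ≤ wd (Ω.1 z) ((kap N D.hG).1 z) e n := by
  obtain ⟨h1, h2⟩ := D.est N hN z e n hf
  have ha := al_nonneg D.k D.G z
  have hC := D.hC
  rcases le_or_gt (al D.k D.G z) 1 with h | h
  · have h3 := h1 h
    have h4 : 0 ≤ ((1 + al D.k D.G z)⁻¹) ^ N * D.c := by
      have := D.hc
      positivity
    have h5 : 0 ≤ ((2 : ℝ)⁻¹) ^ N * (D.C * (1 + N)) := by positivity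
    linarith
  · refine le_trans ?_ h2
    have h3 : ((1 + al D.k D.G z)⁻¹) ^ N ≤ ((2 : ℝ)⁻¹) ^ N := by
      apply pow_le_pow_left₀ (by positivity)
      exact inv_anti₀ (by positivity) (by linarith)
    have h4 : 0 ≤ D.C * (1 + N) := by positivity
    have := mul_le_mul_of_nonneg_right h3 h4
    linarith

theorem upper {Ω : TwoForm} (D : Data Ω) {N : ℕ} (hN : D.N₀ ≤ N) {z e n : C3}
    (hf : IsFrame z e n) (hz : al D.k D.G z < 2⁻¹) :
    ((2 / 3 : ℝ)) ^ N * D.c ≤ wd (Ω.1 z) ((kap N D.hG).1 z) e n := by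
  obtain ⟨h1, h2⟩ := D.est N hN z e n hf
  have ha := al_nonneg D.k D.G z
  have h3 := h1 (hz.le.trans (by norm_num))
  refine le_trans ?_ h3
  apply mul_le_mul_of_nonneg_right _ D.hc.le
  apply pow_le_pow_left₀ (by norm_num)
  have h4 : (2 / 3 : ℝ) = (3 / 2)⁻¹ := by norm_num
  rw [h4]
  exact inv_anti₀ (by positivity) (by linarith)

theorem eventually_small {a b : ℝ} (ha : 0 ≤ a) (hab : a < b) (M c : ℝ) (hc : 0 < c) :
    ∀ᶠ N : ℕ in atTop, a ^ N * (M * (1 + N)) < b ^ N * c := by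
  have hb : 0 < b := ha.trans_lt hab
  have hr0 : 0 ≤ a / b := by positivity
  have hr1 : a / b < 1 := (div_lt_one hb).2 hab
  have h1 : Tendsto (fun N : ℕ => (N : ℝ) * (a / b) ^ N) atTop (𝓝 0) :=
    tendsto_self_mul_const_pow_of_lt_one hr0 hr1
  have h2 : Tendsto (fun N : ℕ => (a / b) ^ N) atTop (𝓝 0) :=
    tendsto_pow_atTop_nhds_zero_of_lt_one hr0 hr1
  have h3 : Tendsto (fun N : ℕ => M * ((a / b) ^ N + N * (a / b) ^ N)) atTop (𝓝 0) := by
    have := (h2.add h1).const_mul M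
    simpa using this
  filter_upwards [h3.eventually (gt_mem_nhds hc)] with N hN
  have h4 : a ^ N = b ^ N * (a / b) ^ N := by
    rw [← mul_pow, mul_div_cancel₀ _ hb.ne']
  have h5 : (0 : ℝ) < b ^ N := by positivity
  calc a ^ N * (M * (1 + N)) = b ^ N * (M * ((a / b) ^ N + N * (a / b) ^ N)) := by
        rw [h4]
        ring
    _ < _ := mul_lt_mul_of_pos_left hN h5

theorem contOn_wd (Ω κ : TwoForm) :
    ContinuousOn (fun p : C3 × C3 × C3 => wd (Ω.1 p.1) (κ.1 p.1) p.2.1 p.2.2) Fr := by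
  have hb : ContinuousOn (fun p : C3 × C3 × C3 => p.1) Fr := by fun_prop
  have he : ContinuousOn (fun p : C3 × C3 × C3 => p.2.1) Fr := by fun_prop
  have hn : ContinuousOn (fun p : C3 × C3 × C3 => p.2.2) Fr := by fun_prop
  have hJe := continuous_J.comp_continuousOn he
  have hJn := continuous_J.comp_continuousOn hn
  have k1 := fun {g h : C3 × C3 × C3 → C3} (hg : ContinuousOn g Fr) (hh : ContinuousOn h Fr) =>
    contOn_eval Ω hb hg hh fun _ hp => Fr_ne hp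
  have k2 := fun {g h : C3 × C3 × C3 → C3} (hg : ContinuousOn g Fr) (hh : ContinuousOn h Fr) =>
    contOn_eval κ hb hg hh fun _ hp => Fr_ne hp
  unfold wd
  exact ((((((k1 he hJe).mul (k2 hn hJn)).add ((k2 he hJe).mul (k1 hn hJn))).sub
    ((k1 he hn).mul (k2 hJe hJn))).sub ((k2 he hn).mul (k1 hJe hJn))).add
    ((k1 he hJn).mul (k2 hJe hn))).add ((k2 he hJn).mul (k1 hJe hn))

theorem exists_taming {Ω κ₀ : TwoForm} (hk : IsK κ₀)
    (h : ∀ z e n, IsFrame z e n → wd (Ω.1 z) (κ₀.1 z) e n ≤ 0 → HasCurve Ω z) :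
    ∃ κ : TwoForm, IsK κ ∧ ∀ z e n, IsFrame z e n → 0 < wd (Ω.1 z) (κ.1 z) e n := by
  classical
  -- the wedge product with `κ₀`
  set w0 : C3 × C3 × C3 → ℝ := fun p => wd (Ω.1 p.1) (κ₀.1 p.1) p.2.1 p.2.2 with hw0
  have hwc : ContinuousOn w0 Fr := contOn_wd Ω κ₀
  -- the bad frames
  have hBc : IsCompact (Fr ∩ w0 ⁻¹' Iic 0) :=
    isCompact_Fr.of_isClosed_subset (hwc.preimage_isClosed_of_isClosed isCompact_Fr.isClosed
      isClosed_Iic) inter_subset_left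
  have hD : ∀ p : (Fr ∩ w0 ⁻¹' Iic 0 : Set (C3 × C3 × C3)),
      ∃ D : Data Ω, al D.k D.G p.1.1 = 0 := fun p =>
    exists_data (Fr_ne p.2.1) (h p.1.1 p.1.2.1 p.1.2.2 p.2.1 p.2.2)
  choose D hD0 using hD
  have hac : ∀ p : (Fr ∩ w0 ⁻¹' Iic 0 : Set (C3 × C3 × C3)),
      ContinuousOn (fun q : C3 × C3 × C3 => al (D p).k (D p).G q.1) Fr := fun p =>
    contOn_al (D p).hG.smooth
  have hcover := hBc.elim_nhdsWithin_subcover'
    (fun p hp => {q | al (D ⟨p, hp⟩).k (D ⟨p, hp⟩).G q.1 < 2⁻¹}) (by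
      intro p hp
      have h1 := (hac ⟨p, hp⟩).mono inter_subset_left p hp
      have h2 : al (D ⟨p, hp⟩).k (D ⟨p, hp⟩).G p.1 < 2⁻¹ := by
        rw [hD0 ⟨p, hp⟩]
        norm_num
      exact h1.eventually (gt_mem_nhds h2))
  obtain ⟨t, ht⟩ := hcover
  -- the remaining frames
  have hGc : IsCompact (Fr ∩ ⋂ i ∈ t, {q | 2⁻¹ ≤ al (D i).k (D i).G q.1}) := by
    have h1 : IsClosed (Fr ∩ ⋂ i ∈ t, (Fr ∩ {q | 2⁻¹ ≤ al (D i).k (D i).G q.1})) := by
      apply isCompact_Fr.isClosed.inter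
      refine isClosed_biInter fun i _ => ?_
      exact (hac i).preimage_isClosed_of_isClosed isCompact_Fr.isClosed isClosed_Ici
    have h2 : Fr ∩ ⋂ i ∈ t, {q | 2⁻¹ ≤ al (D i).k (D i).G q.1} =
        Fr ∩ ⋂ i ∈ t, (Fr ∩ {q | 2⁻¹ ≤ al (D i).k (D i).G q.1}) := by
      ext q
      simp only [mem_inter_iff, mem_iInter, mem_ofPred_eq]
      exact ⟨fun h => ⟨h.1, fun i hi => ⟨h.1, h.2 i hi⟩⟩, fun h => ⟨h.1, fun i hi => (h.2 i hi).2⟩⟩
    rw [h2]
    exact isCompact_Fr.of_isClosed_subset h1 inter_subset_left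
  have hGpos : ∀ q ∈ (Fr ∩ ⋂ i ∈ t, {q | 2⁻¹ ≤ al (D i).k (D i).G q.1}), 0 < w0 q := by
    rintro q ⟨hq1, hq2⟩
    by_contra hcon
    obtain ⟨i, hi, hi'⟩ := mem_iUnion₂.1 (ht ⟨hq1, not_lt.1 hcon⟩)
    have h1 : al (D i).k (D i).G q.1 < 2⁻¹ := hi'
    have h2 : 2⁻¹ ≤ al (D i).k (D i).G q.1 := mem_iInter₂.1 hq2 i hi
    exact absurd h1 (not_lt.2 h2)
  obtain ⟨b, hb, hb'⟩ : ∃ b : ℝ, 0 < b ∧
      ∀ q ∈ (Fr ∩ ⋂ i ∈ t, {q | 2⁻¹ ≤ al (D i).k (D i).G q.1}), b ≤ w0 q := by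
    rcases (Fr ∩ ⋂ i ∈ t, {q | 2⁻¹ ≤ al (D i).k (D i).G q.1}).eq_empty_or_nonempty with h0 | h0
    · exact ⟨1, one_pos, fun q hq => by
        rw [h0] at hq
        exact absurd hq (notMem_empty q)⟩
    · obtain ⟨q, hq, hq'⟩ := hGc.exists_isMinOn h0 (hwc.mono inter_subset_left)
      exact ⟨w0 q, hGpos q hq, fun x hx => hq' hx⟩
  obtain ⟨B, hB⟩ := isCompact_Fr.exists_bound_of_continuousOn hwc
  rcases t.eq_empty_or_nonempty with hte | htne
  · refine ⟨κ₀, hk, fun z e n hf => ?_⟩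
    refine hb.trans_le (hb' (z, e, n) ⟨hf, ?_⟩)
    rw [hte]
    simp
  set M : ℝ := ∑ i ∈ t, (D i).C with hM
  have hev : ∀ᶠ N : ℕ in atTop, ∀ i ∈ t, (D i).N₀ ≤ N ∧
      ((2 : ℝ)⁻¹) ^ N * (M * (1 + N)) < (2 / 3 : ℝ) ^ N * ((D i).c / 2) ∧
      (3 / 5 : ℝ) ^ N * ((max B 0) * (1 + N)) < (2 / 3 : ℝ) ^ N * ((D i).c / 2) := by
    rw [Filter.eventually_all_finset]
    intro i hi
    have hc2 : 0 < (D i).c / 2 := half_pos (D i).hc
    exact (eventually_ge_atTop _).and ((eventually_small (by norm_num) (by norm_num) M _ hc2).and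
      (eventually_small (by norm_num) (by norm_num) (max B 0) _ hc2))
  have hev2 : ∀ᶠ N : ℕ in atTop, ((2 : ℝ)⁻¹) ^ N * (M * (1 + N)) < (3 / 5 : ℝ) ^ N * b :=
    eventually_small (by norm_num) (by norm_num) M _ hb
  obtain ⟨N, hN, hN2⟩ := (hev.and hev2).exists
  have hcard : (0 : ℝ) < t.card := by
    exact_mod_cast Finset.card_pos.2 htne
  set d : ℝ := (3 / 5 : ℝ) ^ N with hd
  have hd0 : 0 < d := by positivity
  have hs0 : 0 < t.card + d := by positivity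
  -- the average
  set A : TwoForm := ∑ i ∈ t, ((t.card : ℝ)⁻¹) • kap N (D i).hG with hA
  have hAK : IsK A := by
    have := convex_IsK.sum_mem (t := t) (w := fun _ => (t.card : ℝ)⁻¹)
      (z := fun i => kap N (D i).hG) (fun i _ => by positivity) (by
        rw [Finset.sum_const, nsmul_eq_mul, mul_inv_cancel₀ hcard.ne'])
      (fun i _ => isK_kap N (D i).hG)
    exact this
  refine ⟨((t.card : ℝ) / (t.card + d)) • A + (d / (t.card + d)) • κ₀,
    convex_IsK hAK hk (by positivity) (by positivity) (by field_simp), fun z e n hf => ?_⟩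
  have hsum : wd (Ω.1 z) ((((t.card : ℝ) / (t.card + d)) • A + (d / (t.card + d)) • κ₀).1 z) e n =
      (t.card + d)⁻¹ * (∑ i ∈ t, wd (Ω.1 z) ((kap N (D i).hG).1 z) e n + d * w0 (z, e, n)) := by
    rw [← wdL_apply, map_add, map_smul, map_smul, hA, map_sum]
    simp only [map_smul, wdL_apply, smul_eq_mul]
    rw [← Finset.mul_sum]
    show _ + _ * w0 (z, e, n) = _
    field_simp
  rw [hsum]
  apply mul_pos (by positivity)
  have hlow : -(((2 : ℝ)⁻¹) ^ N * (M * (1 + N))) ≤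
      ∑ i ∈ t, wd (Ω.1 z) ((kap N (D i).hG).1 z) e n := by
    have h2 : ∑ j ∈ t, -(((2 : ℝ)⁻¹) ^ N * ((D j).C * (1 + N))) ≤
        ∑ j ∈ t, wd (Ω.1 z) ((kap N (D j).hG).1 z) e n :=
      Finset.sum_le_sum fun j hj => lower (D j) (hN j hj).1 hf
    rwa [Finset.sum_neg_distrib, ← Finset.mul_sum, ← Finset.sum_mul] at h2
  by_cases hgood : (z, e, n) ∈ (Fr ∩ ⋂ i ∈ t, {q | 2⁻¹ ≤ al (D i).k (D i).G q.1})
  · have h1 := mul_le_mul_of_nonneg_left (hb' _ hgood) hd0.le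
    linarith
  · obtain ⟨i, hi, hi'⟩ : ∃ i ∈ t, al (D i).k (D i).G z < 2⁻¹ := by
      by_contra hcon
      push Not at hcon
      exact hgood ⟨hf, mem_iInter₂.2 fun i hi => hcon i hi⟩
    rw [← Finset.add_sum_erase t _ hi]
    have h1 := upper (D i) (hN i hi).1 hf hi'
    have h2 : ∑ j ∈ t.erase i, -(((2 : ℝ)⁻¹) ^ N * ((D j).C * (1 + N))) ≤
        ∑ j ∈ t.erase i, wd (Ω.1 z) ((kap N (D j).hG).1 z) e n :=
      Finset.sum_le_sum fun j hj => lower (D j) (hN j (Finset.mem_of_mem_erase hj)).1 hf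
    have h3 : -(((2 : ℝ)⁻¹) ^ N * (M * (1 + N))) ≤
        ∑ j ∈ t.erase i, -(((2 : ℝ)⁻¹) ^ N * ((D j).C * (1 + N))) := by
      rw [Finset.sum_neg_distrib, ← Finset.mul_sum, ← Finset.sum_mul]
      apply neg_le_neg
      apply mul_le_mul_of_nonneg_left _ (by positivity)
      apply mul_le_mul_of_nonneg_right _ (by positivity)
      rw [hM, ← Finset.add_sum_erase t _ hi]
      have := (D i).hC
      linarith
    obtain ⟨-, h4, h5⟩ := hN i hi
    have h6 : -(d * ((max B 0) * (1 + N))) ≤ d * w0 (z, e, n) := by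
      have h7 := hB (z, e, n) hf
      rw [Real.norm_eq_abs] at h7
      have h8 := neg_abs_le (w0 (z, e, n))
      have h9 : (0 : ℝ) ≤ max B 0 := le_max_right _ _
      have h10 : B ≤ max B 0 := le_max_left _ _
      have h11 : (0 : ℝ) ≤ max B 0 * N := by positivity
      have h12 : -((max B 0) * (1 + N)) ≤ w0 (z, e, n) := by linarith
      have := mul_le_mul_of_nonneg_left h12 hd0.le
      linarith
    linarith

end Pool.Agent.H820.PC
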