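import Pool.Agent.H820.PC.Sum

/-!
The topology of the space of two-forms.
-/

set_option autoImplicit false

open Set Topology Filter
open scoped ContDiff

noncomputable section

namespace Pool.Agent.H820.PC

instance instLCpt : LocallyCompactSpace Dom := isOpen_Dom.locallyCompactSpace

instance instSigma : SigmaCompactSpace Dom := inferInstance

section generic

variable {E F : Type} [NormedAddCommGroup E] [NormedSpace ℝ E] [NormedAddCommGroup F]
  [NormedSpace ℝ F]

theorem pm_pi {A : ℕ → Type} [∀ i, TopologicalSpace (A i)]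
    [∀ i, TopologicalSpace.PseudoMetrizableSpace (A i)] :
    TopologicalSpace.PseudoMetrizableSpace (∀ i, A i) := by
  let _ : ∀ i, UniformSpace (A i) := fun i =>
    TopologicalSpace.pseudoMetrizableSpaceUniformity (A i)
  have _ : ∀ i, IsCountablyGenerated (uniformity (A i)) := fun i =>
    TopologicalSpace.pseudoMetrizableSpaceUniformity_countably_generated (A i)
  exact UniformSpace.pseudoMetrizableSpace

theorem pm_smooth {U : Set E} (hU : IsOpen U) [LocallyCompactSpace U] [SigmaCompactSpace U] :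
    @TopologicalSpace.PseudoMetrizableSpace {f : E → F // ContDiffOn ℝ ∞ f U}
      (smoothTopology hU) := by
  let _ := smoothTopology (F := F) hU
  have h : IsInducing (fun (f : {f : E → F // ContDiffOn ℝ ∞ f U}) (k : ℕ) => jet hU k f) :=
    inducing_iInf_to_pi _
  have h1 : TopologicalSpace.PseudoMetrizableSpace ((k : ℕ) → C(U, E [×k]→L[ℝ] F)) := pm_pi
  exact h.pseudoMetrizableSpace

end generic

/-- the derivatives of order `k` of the coefficients -/
def jetT (k : ℕ) (Ω : TwoForm) : C(Dom, C3 [×k]→L[ℝ] (C3 [⋀^Fin 2]→L[ℝ] ℝ)) :=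
  jet isOpen_Dom k Ω.coeff

theorem top_eq : instTopTwoForm = ⨅ k : ℕ, TopologicalSpace.induced (jetT k) inferInstance := by
  unfold instTopTwoForm smoothTopology
  rw [induced_iInf]
  congr 1
  funext k
  rw [induced_compose]
  rfl

theorem continuous_jet (k : ℕ) : Continuous (jetT k) := by
  rw [continuous_iff_le_induced, top_eq]
  exact iInf_le _ k

instance instContAddJ (k : ℕ) : ContinuousAdd (C3 [×k]→L[ℝ] (C3 [⋀^Fin 2]→L[ℝ] ℝ)) := by
  have : IsTopologicalAddGroup (C3 [×k]→L[ℝ] (C3 [⋀^Fin 2]→L[ℝ] ℝ)) := inferInstance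
  exact this.toContinuousAdd

/-- `jetT` as a linear map -/
def jetL (k : ℕ) : TwoForm →ₗ[ℝ] C(Dom, C3 [×k]→L[ℝ] (C3 [⋀^Fin 2]→L[ℝ] ℝ)) where
  toFun := jetT k
  map_add' a b := by
    ext1 z
    have h1 : ContDiffAt ℝ k a.1 z.1 := (a.2.smooth.contDiffAt (isOpen_Dom.mem_nhds z.2)).of_le
      (by exact_mod_cast le_top)
    have h2 : ContDiffAt ℝ k b.1 z.1 := (b.2.smooth.contDiffAt (isOpen_Dom.mem_nhds z.2)).of_le
      (by exact_mod_cast le_top)
    exact iteratedFDeriv_add_apply h1 h2
  map_smul' r a := by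
    ext1 z
    have h1 : ContDiffAt ℝ k a.1 z.1 := (a.2.smooth.contDiffAt (isOpen_Dom.mem_nhds z.2)).of_le
      (by exact_mod_cast le_top)
    exact iteratedFDeriv_const_smul_apply h1

instance instContAdd : ContinuousAdd TwoForm := by
  rw [top_eq]
  exact continuousAdd_iInf fun k => continuousAdd_induced (jetL k)

instance instContSMul : ContinuousSMul ℝ TwoForm := by
  rw [top_eq]
  exact continuousSMul_iInf fun k => continuousSMul_induced (jetL k)

instance instPM : TopologicalSpace.PseudoMetrizableSpace TwoForm := by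
  let _ := smoothTopology (F := C3 [⋀^Fin 2]→L[ℝ] ℝ) isOpen_Dom
  have h1 := pm_smooth (F := C3 [⋀^Fin 2]→L[ℝ] ℝ) isOpen_Dom
  have h : IsInducing TwoForm.coeff := ⟨rfl⟩
  exact h.pseudoMetrizableSpace

/-- the evaluation is jointly continuous -/
theorem continuous_value {X : Type} [TopologicalSpace X] {A : X → TwoForm}
    {f : X → Dom} (hA : Continuous A) (hf : Continuous f) :
    Continuous (fun x => (A x).1 (f x)) := by
  have h1 : Continuous fun x => jetT 0 (A x) (f x) := ((continuous_jet 0).comp hA).eval hf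
  have h2 : Continuous fun x => jetT 0 (A x) (f x) 0 :=
    (continuous_eval_const (0 : Fin 0 → C3)).comp h1
  exact h2

theorem continuous_value2 {X : Type} [TopologicalSpace X] {A : X → TwoForm}
    {f : X → Dom} {g h : X → C3} (hA : Continuous A) (hf : Continuous f)
    (hg : Continuous g) (hh : Continuous h) :
    Continuous (fun x => (A x).1 (f x) ![g x, h x]) := by
  have h2 : Continuous (fun x => ![g x, h x]) := by
    rw [continuous_pi_iff]
    intro i
    fin_cases i
    · exact hg
    · exact hh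
  exact (continuous_value hA hf).eval h2

instance instCptFr : CompactSpace Fr := isCompact_iff_compactSpace.1 isCompact_Fr

/-- the base point of a frame -/
def base (p : Fr) : Dom := ⟨p.1.1, Fr_ne p.2⟩

theorem continuous_base : Continuous base :=
  Continuous.subtype_mk (continuous_fst.comp continuous_subtype_val) _

theorem continuous_wd (κ : TwoForm) : Continuous fun x : TwoForm × Fr =>
    wd (x.1.1 (x.2.1.1)) (κ.1 (x.2.1.1)) x.2.1.2.1 x.2.1.2.2 := by
  have hb : Continuous fun x : TwoForm × Fr => base x.2 := continuous_base.comp continuous_snd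
  have he : Continuous fun x : TwoForm × Fr => x.2.1.2.1 := by fun_prop
  have hn : Continuous fun x : TwoForm × Fr => x.2.1.2.2 := by fun_prop
  have hJe := continuous_J.comp he
  have hJn := continuous_J.comp hn
  have k1 := fun {g h : TwoForm × Fr → C3} (hg : Continuous g) (hh : Continuous h) =>
    continuous_value2 (A := fun x : TwoForm × Fr => x.1) continuous_fst hb hg hh
  have k2 := fun {g h : TwoForm × Fr → C3} (hg : Continuous g) (hh : Continuous h) =>
    continuous_value2 (A := fun _ : TwoForm × Fr => κ) continuous_const hb hg hh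
  unfold wd
  exact ((((((k1 he hJe).mul (k2 hn hJn)).add ((k2 he hJe).mul (k1 hn hJn))).sub
    ((k1 he hn).mul (k2 hJe hJn))).sub ((k2 he hn).mul (k1 hJe hJn))).add
    ((k1 he hJn).mul (k2 hJe hn))).add ((k2 he hJn).mul (k1 hJe hn))

theorem eventually_wd {Ω κ : TwoForm}
    (h : ∀ z e n, IsFrame z e n → 0 < wd (Ω.1 z) (κ.1 z) e n) :
    ∀ᶠ Ω' : TwoForm in 𝓝 Ω, ∀ z e n, IsFrame z e n → 0 < wd (Ω'.1 z) (κ.1 z) e n := by
  have h1 := isCompact_univ.eventually_forall_of_forall_eventually (x₀ := Ω)
    (K := (univ : Set Fr)) (P := fun Ω' p => 0 < wd (Ω'.1 p.1.1) (κ.1 p.1.1) p.1.2.1 p.1.2.2)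
    (fun p _ => (continuous_wd κ).continuousAt.eventually (lt_mem_nhds (h _ _ _ p.2)))
  filter_upwards [h1] with Ω' h2 z e n hf
  exact h2 ⟨(z, e, n), hf⟩ (mem_univ _)

/-- the sets of forms for which there are taming forms with a positive wedge product have a
continuous choice of such taming forms -/
theorem exists_choice {U : Set TwoForm} (hU : ∀ Ω ∈ U, ∃ κ : TwoForm, IsK κ ∧
      ∀ z e n, IsFrame z e n → 0 < wd (Ω.1 z) (κ.1 z) e n) :
    ∃ g : C(U, TwoForm), ∀ Ω : U, IsK (g Ω) ∧
      ∀ z e n, IsFrame z e n → 0 < wd (Ω.1.1 z) ((g Ω).1 z) e n := by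
  have hconv : ∀ Ω : U, Convex ℝ {κ : TwoForm | IsK κ ∧
      ∀ z e n, IsFrame z e n → 0 < wd (Ω.1.1 z) (κ.1 z) e n} := by
    intro Ω
    refine convex_IsK.inter ?_
    intro a ha b hb s t hs ht hst z e n hf
    rw [← wdL_apply, map_add, map_smul, map_smul, smul_eq_mul, smul_eq_mul, wdL_apply, wdL_apply]
    have h1 := ha z e n hf
    have h2 := hb z e n hf
    rcases hs.eq_or_lt with h0 | h0
    · rw [← h0] at hst ⊢
      have : t = 1 := by linarith
      rw [this]
      linarith
    · have := mul_pos h0 h1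
      have := mul_nonneg ht h2.le
      linarith
  let _ : PseudoMetricSpace TwoForm := TopologicalSpace.pseudoMetrizableSpacePseudoMetric TwoForm
  apply exists_continuous_forall_mem_convex_of_local_const hconv
  intro Ω
  obtain ⟨κ, h1, h2⟩ := hU Ω.1 Ω.2
  refine ⟨κ, ?_⟩
  have h3 : ∀ᶠ Ω' : U in 𝓝 Ω, ∀ z e n, IsFrame z e n →
      0 < wd (Ω'.1.1 z) (κ.1 z) e n := continuousAt_subtype_val.eventually (eventually_wd h2)
  filter_upwards [h3] with Ω' h4
  exact ⟨h1, h4⟩

end Pool.Agent.H820.PC
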