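import Pool.Agent.H820.PC.Kah

/-!
The convex set of the taming forms, and the Kähler forms concentrated near a curve.
-/

set_option autoImplicit false

open Set Topology Filter
open scoped ContDiff

noncomputable section

namespace Pool.Agent.H820.PC

/-- the real vector space of the smooth two-forms on `ℂℙ²` -/
def twoForms : Submodule ℝ (Form 2) where
  carrier := {Ω | IsForm 2 Ω}
  add_mem' {a b} ha hb := ⟨ha.smooth.add hb.smooth,
    fun c z v hc hz => by
      show (a (c • z) + b (c • z)) _ = (a z + b z) v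
      rw [ContinuousAlternatingMap.add_apply, ContinuousAlternatingMap.add_apply,
        ha.invariant c z v hc hz, hb.invariant c z v hc hz],
    fun z v i c hz hv => by
      show (a z + b z) v = 0
      rw [ContinuousAlternatingMap.add_apply, ha.horizontal z v i c hz hv,
        hb.horizontal z v i c hz hv, add_zero],
    by rw [Pi.add_apply, ha.zero, hb.zero, add_zero]⟩
  zero_mem' := ⟨contDiffOn_const, fun _ _ _ _ _ => rfl, fun _ _ _ _ _ _ => rfl, rfl⟩
  smul_mem' r a ha := ⟨ha.smooth.const_smul r,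
    fun c z v hc hz => by
      show (r • a (c • z)) _ = (r • a z) v
      rw [ContinuousAlternatingMap.smul_apply, ContinuousAlternatingMap.smul_apply,
        ha.invariant c z v hc hz],
    fun z v i c hz hv => by
      show (r • a z) v = 0
      rw [ContinuousAlternatingMap.smul_apply, ha.horizontal z v i c hz hv, smul_zero],
    by rw [Pi.smul_apply, ha.zero, smul_zero]⟩

/-- two-forms as elements of the vector space -/
def eqv : TwoForm ≃ twoForms where
  toFun Ω := ⟨Ω.1, Ω.2⟩
  invFun Ω := ⟨Ω.1, Ω.2⟩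
  left_inv _ := rfl
  right_inv _ := rfl

instance instAddTwoForm : AddCommGroup TwoForm := Equiv.addCommGroup eqv
instance instModuleTwoForm : Module ℝ TwoForm := Equiv.module ℝ eqv

theorem val_add (a b : TwoForm) : (a + b).1 = a.1 + b.1 := rfl
theorem val_smul (r : ℝ) (a : TwoForm) : (r • a).1 = r • a.1 := rfl

theorem add_at (a b : TwoForm) (z : C3) : (a + b).1 z = a.1 z + b.1 z := rfl
theorem smul_at (r : ℝ) (a : TwoForm) (z : C3) : (r • a).1 z = r • a.1 z := rfl

theorem add_at' (a b : TwoForm) (z : C3) (v : Fin 2 → C3) :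
    (a + b).1 z v = a.1 z v + b.1 z v := rfl
theorem smul_at' (r : ℝ) (a : TwoForm) (z : C3) (v : Fin 2 → C3) :
    (r • a).1 z v = r * a.1 z v := rfl

/-- the set of the taming forms -/
structure IsK (κ : TwoForm) : Prop where
  closed : ∀ z : C3, z ≠ 0 → extDeriv κ.1 z = 0
  cohomologous : Cohomologous κ.1
  pos : ∀ z e n : C3, IsFrame z e n → 0 < κ.1 z ![e, J e]

theorem differentiableAt_two (Ω : TwoForm) {z : C3} (hz : z ≠ 0) : DifferentiableAt ℝ Ω.1 z :=
  differentiableAt_of Ω.2.smooth hz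

theorem closed_iff {Ω : Form 2} : Closed Ω ↔ ∀ z : C3, z ≠ 0 → extDeriv Ω z = 0 := by
  constructor
  · intro h z hz
    ext v
    have e : v = ![v 0, v 1, v 2] := by
      funext i
      fin_cases i <;> rfl
    rw [e]
    exact h z _ _ _ hz
  · intro h z u v w hz
    show extDeriv Ω z ![u, v, w] = 0
    rw [h z hz]
    rfl

theorem closed_comb {a b : TwoForm} (ha : ∀ z : C3, z ≠ 0 → extDeriv a.1 z = 0)
    (hb : ∀ z : C3, z ≠ 0 → extDeriv b.1 z = 0) (s t : ℝ) (z : C3) (hz : z ≠ 0) :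
    extDeriv (s • a + t • b).1 z = 0 := by
  rw [val_add, val_smul, val_smul]
  rw [extDeriv_add ((differentiableAt_two a hz).const_smul s)
    ((differentiableAt_two b hz).const_smul t)]
  have e : ∀ (r : ℝ) (c : TwoForm), (∀ z : C3, z ≠ 0 → extDeriv c.1 z = 0) →
      extDeriv (r • c.1) z = 0 := by
    intro r c hc
    have h1 : extDeriv (r • c.1) z = r • extDeriv c.1 z := by
      unfold extDeriv
      rw [fderiv_const_smul (differentiableAt_two c hz)]
      exact map_smul (ContinuousAlternatingMap.alternatizeUncurryFinCLM ℝ C3 ℝ) r _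
    rw [h1, hc z hz, smul_zero]
  rw [e s a ha, e t b hb, add_zero]

theorem isForm_comb {β γ : Form 1} (hb : IsForm 1 β) (hc : IsForm 1 γ) (s t : ℝ) :
    IsForm 1 (s • β + t • γ) := by
  refine ⟨(hb.smooth.const_smul s).add (hc.smooth.const_smul t), ?_, ?_, ?_⟩
  · intro c z v hc0 hz
    show s * β (c • z) (fun i => c • v i) + t * γ (c • z) (fun i => c • v i) =
      s * β z v + t * γ z v
    rw [hb.invariant c z v hc0 hz, hc.invariant c z v hc0 hz]
  · intro z v i c hz hv
    show s * β z v + t * γ z v = 0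
    rw [hb.horizontal z v i c hz hv, hc.horizontal z v i c hz hv]
    ring
  · show s • β 0 + t • γ 0 = 0
    rw [hb.zero, hc.zero, smul_zero, smul_zero, add_zero]

theorem extDeriv_comb {β γ : Form 1} (hb : IsForm 1 β) (hc : IsForm 1 γ) (s t : ℝ) {z : C3}
    (hz : z ≠ 0) (v w : C3) : extDeriv (s • β + t • γ) z ![v, w] =
      s * extDeriv β z ![v, w] + t * extDeriv γ z ![v, w] := by
  have h1 := differentiableAt_of hb.smooth hz
  have h2 := differentiableAt_of hc.smooth hz
  rw [extDeriv_one ((h1.const_smul s).add (h2.const_smul t)), extDeriv_one h1, extDeriv_one h2,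
    fderiv_add (h1.const_smul s) (h2.const_smul t), fderiv_const_smul h1, fderiv_const_smul h2]
  show (s * fderiv ℝ β z v ![w] + t * fderiv ℝ γ z v ![w]) -
    (s * fderiv ℝ β z w ![v] + t * fderiv ℝ γ z w ![v]) = _
  ring

theorem cohomologous_comb {a b : TwoForm} (ha : Cohomologous a.1) (hb : Cohomologous b.1)
    {s t : ℝ} (hst : s + t = 1) : Cohomologous (s • a + t • b).1 := by
  obtain ⟨β, h1, h2⟩ := ha
  obtain ⟨γ, h3, h4⟩ := hb
  refine ⟨s • β + t • γ, isForm_comb h1 h3 s t, fun z v w hz => ?_⟩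
  show _ = _ + extDeriv (s • β + t • γ) z ![v, w]
  rw [add_at', smul_at', smul_at', h2 z v w hz, h4 z v w hz, extDeriv_comb h1 h3 s t hz]
  unfold d
  have : s * fs z v w + t * fs z v w = fs z v w := by
    rw [← add_mul, hst, one_mul]
  linarith

theorem convex_IsK : Convex ℝ {κ : TwoForm | IsK κ} := by
  intro a ha b hb s t hs ht hst
  refine ⟨closed_comb ha.closed hb.closed s t, cohomologous_comb ha.cohomologous
    hb.cohomologous hst, ?_⟩
  · intro z e n h
    rw [add_at', smul_at', smul_at']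
    have h1 := ha.pos z e n h
    have h2 := hb.pos z e n h
    rcases hs.eq_or_lt with h0 | h0
    · rw [← h0] at hst ⊢
      have : t = 1 := by linarith
      rw [this]
      linarith
    · have := mul_pos h0 h1
      have := mul_nonneg ht h2.le
      linarith

theorem IsK.lines {κ : TwoForm} (h : IsK κ) (z v : C3) (hz : z ≠ 0)
    (hv : ∀ c : ℂ, v ≠ c • z) : 0 < κ.1 z ![v, J v] := lines_of_frames κ.2 h.pos z v hz hv

theorem IsFrame.not_vertical {z e n : C3} (h : IsFrame z e n) (c d : ℂ) : e + d • n ≠ c • z := by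
  intro h0
  have h1 : inner ℂ e (e + d • n) = (1 : ℂ) := by
    rw [inner_add_right, inner_smul_right, h.en, mul_zero, add_zero, inner_self_eq_norm_sq_to_K,
      h.ne]
    norm_num
  rw [h0, inner_smul_right, inner_eq_zero_symm.1 h.ze, mul_zero] at h1
  exact zero_ne_one h1

theorem IsFrame.not_vertical' {z e n : C3} (h : IsFrame z e n) (c : ℂ) : e ≠ c • z := by
  have := h.not_vertical c 0
  rwa [zero_smul, add_zero] at this

theorem IsFrame.swap {z e n : C3} (h : IsFrame z e n) : IsFrame z n e :=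
  ⟨h.nz, h.nn, h.ne, h.zn, h.ze, inner_eq_zero_symm.1 h.en⟩

theorem IsK.pfA_pos {κ : TwoForm} (h : IsK κ) {z e n : C3} (hf : IsFrame z e n) :
    0 < pfA (κ.1 z) e n := by
  set A := κ.1 z with hA
  have hX : 0 < A ![e, J e] := h.pos z e n hf
  have hY : 0 < A ![n, J n] := h.pos z n e hf.swap
  set P : ℝ := (A ![e, n] + A ![J e, J n]) / 2 with hP
  set Q : ℝ := (A ![e, J n] - A ![J e, n]) / 2 with hQ
  have h3 : ∀ a b : ℝ, 0 < A ![e, J e] + (a ^ 2 + b ^ 2) * A ![n, J n] +
      2 * (a * Q - b * P) := by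
    intro a b
    have h4 := h.lines z (e + ((a : ℂ) + b * Complex.I) • n) hf.z0
      (fun c => hf.not_vertical c _)
    rw [← hA, csmul] at h4
    have ea : ((a : ℂ) + b * Complex.I).re = a := by simp
    have eb : ((a : ℂ) + b * Complex.I).im = b := by simp
    rw [ea, eb] at h4
    simp only [J_add, J_smul, J_J, bil_add_left, bil_add_right, bil_smul_left, bil_smul_right,
      bil_neg_right, smul_neg, bil_self] at h4
    rw [bil_swap A n (J e), bil_swap A (J n) (J e), bil_swap A (J n) n] at h4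
    rw [hP, hQ]
    linarith
  have h5 := h3 (-(Q / A ![n, J n])) (P / A ![n, J n])
  have h6 : A ![e, J e] + ((-(Q / A ![n, J n])) ^ 2 + (P / A ![n, J n]) ^ 2) *
      A ![n, J n] + 2 * (-(Q / A ![n, J n]) * Q - P / A ![n, J n] * P) =
      (A ![e, J e] * A ![n, J n] - P ^ 2 - Q ^ 2) / A ![n, J n] := by
    field_simp
    ring
  rw [h6] at h5
  have h7 := (div_pos_iff_of_pos_right hY).1 h5
  unfold pfA
  have h8 := sq_nonneg (A ![e, n] - A ![J e, J n])
  have h9 := sq_nonneg (A ![e, J n] + A ![J e, n])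
  rw [hP, hQ] at h7
  nlinarith

/-- forms as elements of `TwoForm` -/
def mkTwo (Ω : Form 2) (h : IsForm 2 Ω) : TwoForm := ⟨Ω, h⟩

theorem mkTwo_val (Ω : Form 2) (h : IsForm 2 Ω) : (mkTwo Ω h).1 = Ω := rfl

/-- the Fubini-Study form as a two-form -/
def fsForm : TwoForm := mkTwo (dB lam0) (isForm_dB isConn_lam0)

theorem fsForm_at {z : C3} (hz : z ≠ 0) (v w : C3) : fsForm.1 z ![v, w] = fs z v w := by
  show dB lam0 z ![v, w] = _
  rw [dB_ne _ hz, dlam0 hz]

/-- the form `ω_FS + d lam` -/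
def kap (n : ℕ) {k : ℕ} {F : C3 → ℂ} (h : Hom k F) : TwoForm :=
  fsForm + mkTwo (dB (lam n k F)) (isForm_dB (isForm_lam n h).isConn)

theorem kap_at (n : ℕ) {k : ℕ} {F : C3 → ℂ} (h : Hom k F) {z : C3} (hz : z ≠ 0) (v w : C3) :
    (kap n h).1 z ![v, w] = fs z v w + extDeriv (lam n k F) z ![v, w] := by
  unfold kap
  rw [add_at', fsForm_at hz, mkTwo_val, dB_ne _ hz]

theorem fs_horizontal {z v w : C3} (hz : ‖z‖ = 1) (hv : inner ℂ z v = 0) (hw : inner ℂ z w = 0) :
    fs z v w = inner ℝ (J v) w := by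
  have hv1 : inner ℝ z v = 0 := by rw [inner_re, hv, Complex.zero_re]
  have hw1 : inner ℝ z w = 0 := by rw [inner_re, hw, Complex.zero_re]
  unfold fs
  rw [hz, hv1, hw1]
  simp

theorem kap_horizontal (n : ℕ) {k : ℕ} {F : C3 → ℂ} (h : Hom k F) {z v w : C3} (hz1 : ‖z‖ = 1)
    (hv : inner ℂ z v = 0) (hw : inner ℂ z w = 0) :
    (kap n h).1 z ![v, w] = ((1 + al k F z)⁻¹) ^ n * inner ℝ (J v) w +
      (n / k * ((1 + al k F z)⁻¹) ^ (n + 1)) *
        inner ℝ (Complex.I * fderiv ℝ F z v) (fderiv ℝ F z w) := by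
  have hz : z ≠ 0 := by
    intro h0
    rw [h0, norm_zero] at hz1
    exact zero_ne_one hz1
  rw [kap_at n h hz, dlam n h hz1 hv hw, fs_horizontal hz1 hv hw]
  ring

theorem fderiv_J {k : ℕ} {F : C3 → ℂ} (h : Hom k F) (z v : C3) :
    fderiv ℝ F z (J v) = Complex.I * fderiv ℝ F z v := h.linear z v Complex.I

theorem inner_J_C {z v : C3} (h : inner ℂ z v = 0) : inner ℂ z (J v) = 0 := by
  unfold J
  rw [inner_smul_right, h, mul_zero]

theorem closed_dB_conn {β : Form 1} (h : IsConn β) {z : C3} (hz : z ≠ 0) :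
    extDeriv (dB β) z = 0 := closed_dB h.smooth hz

theorem fsForm_closed (z : C3) (hz : z ≠ 0) : extDeriv fsForm.1 z = 0 := closed_dB isConn_lam0.smooth hz

theorem kap_jinv1 (n : ℕ) {k : ℕ} {F : C3 → ℂ} (h : Hom k F) {z e w : C3}
    (hf : IsFrame z e w) : (kap n h).1 z ![J e, J w] = (kap n h).1 z ![e, w] := by
  rw [kap_horizontal n h hf.nz (inner_J_C hf.ze) (inner_J_C hf.zn),
    kap_horizontal n h hf.nz hf.ze hf.zn, inner_J_J, fderiv_J h, fderiv_J h]
  congr 2
  simp only [Complex.inner, map_mul, Complex.conj_I, Complex.mul_re, Complex.mul_im,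
    Complex.conj_re, Complex.conj_im, Complex.neg_re, Complex.neg_im, Complex.I_re,
    Complex.I_im]
  ring

theorem kap_jinv2 (n : ℕ) {k : ℕ} {F : C3 → ℂ} (h : Hom k F) {z e w : C3}
    (hf : IsFrame z e w) : (kap n h).1 z ![J e, w] = -(kap n h).1 z ![e, J w] := by
  rw [kap_horizontal n h hf.nz (inner_J_C hf.ze) hf.zn,
    kap_horizontal n h hf.nz hf.ze (inner_J_C hf.zn), inner_J_J, fderiv_J h, fderiv_J h, J_J,
    inner_neg_left]
  simp only [Complex.inner, map_mul, Complex.conj_I, Complex.mul_re, Complex.mul_im,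
    Complex.conj_re, Complex.conj_im, Complex.neg_re, Complex.neg_im, Complex.I_re,
    Complex.I_im]
  ring

theorem isK_kap (n : ℕ) {k : ℕ} {F : C3 → ℂ} (h : Hom k F) : IsK (kap n h) := by
  have hk0 : (0 : ℝ) < k := by
    have := h.pos
    positivity
  refine ⟨?_, ⟨lam n k F, isForm_lam n h, fun z v w hz => kap_at n h hz v w⟩, ?_⟩
  · intro z hz
    have h1 := closed_comb (a := fsForm)
      (b := mkTwo (dB (lam n k F)) (isForm_dB (isForm_lam n h).isConn)) fsForm_closed
      (fun z hz => closed_dB (isForm_lam n h).smooth hz) 1 1 z hz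
    rw [one_smul, one_smul] at h1
    exact h1
  · intro z e w hf
    rw [kap_horizontal n h hf.nz hf.ze (inner_J_C hf.ze), inner_J_J, fderiv_J h,
      real_inner_self_eq_norm_sq, real_inner_self_eq_norm_sq, hf.ne]
    have ha := al_nonneg k F z
    positivity

theorem isK_fsForm : IsK fsForm := by
  refine ⟨fsForm_closed, ⟨0, ⟨contDiffOn_const, fun _ _ _ _ _ => rfl, fun _ _ _ _ _ _ => rfl,
    rfl⟩, fun z v w hz => ?_⟩, ?_⟩
  · unfold d
    rw [fsForm_at hz]
    have : extDeriv (0 : Form 1) z = 0 := by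
      unfold extDeriv
      have e : fderiv ℝ (0 : Form 1) z = 0 := by
        exact fderiv_const_apply (0 : C3 [⋀^Fin 1]→L[ℝ] ℝ)
      rw [e]
      exact map_zero (ContinuousAlternatingMap.alternatizeUncurryFinCLM ℝ C3 ℝ)
    rw [this]
    simp
  · intro z e n hf
    rw [fsForm_at hf.z0, fs_horizontal hf.nz hf.ze (inner_J_C hf.ze), inner_J_J,
      real_inner_self_eq_norm_sq, hf.ne]
    norm_num

theorem isK_iff {κ : TwoForm} : IsK κ ↔ IsSymplectic κ ∧ Tames κ := by
  constructor
  · intro h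
    exact ⟨⟨closed_iff.2 h.closed, h.cohomologous, pos_of_frames fun z e n hf => h.pfA_pos hf⟩,
      fun z v hz hv => h.lines z v hz hv⟩
  · rintro ⟨h1, h2⟩
    exact ⟨closed_iff.1 h1.closed, h1.cohomologous, fun z e n hf => h2 z e hf.z0 fun c => hf.not_vertical' c⟩

/-- the wedge product with the Fubini-Study form -/
theorem wedge_fs {A : TwoForm} {z e m : C3} (hf : IsFrame z e m) :
    wedge (ev A z) (fs z) e m = A.1 z ![e, J e] + A.1 z ![m, J m] := by
  have hem : inner ℝ e m = 0 := by rw [inner_re, hf.en, Complex.zero_re]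
  have hem' : inner ℝ (J e) m = 0 := by rw [inner_im, hf.en, Complex.zero_im]
  have k1 : fs z e (J e) = 1 := by
    rw [fs_horizontal hf.nz hf.ze (inner_J_C hf.ze), inner_J_J, real_inner_self_eq_norm_sq, hf.ne]
    norm_num
  have k2 : fs z m (J m) = 1 := by
    rw [fs_horizontal hf.nz hf.zn (inner_J_C hf.zn), inner_J_J, real_inner_self_eq_norm_sq, hf.nn]
    norm_num
  have k3 : fs z e m = 0 := by rw [fs_horizontal hf.nz hf.ze hf.zn, hem']
  have k4 : fs z e (J m) = 0 := by
    rw [fs_horizontal hf.nz hf.ze (inner_J_C hf.zn), inner_J_J, hem]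
  have k5 : fs z (J e) (J m) = 0 := by
    rw [fs_horizontal hf.nz (inner_J_C hf.ze) (inner_J_C hf.zn), J_J, inner_neg_left,
      inner_J_right, hem']
    simp
  have k6 : fs z (J e) m = 0 := by
    rw [fs_horizontal hf.nz (inner_J_C hf.ze) hf.zn, J_J, inner_neg_left, hem, neg_zero]
  unfold wedge
  rw [k1, k2, k3, k4, k5, k6]
  show A.1 z ![e, J e] * 1 + 1 * A.1 z ![m, J m] - _ * 0 - 0 * _ + _ * 0 + 0 * _ = _
  ring

/-- the wedge product with the Kähler form of a curve, in an adapted frame -/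
theorem wd_kap (A : C3 [⋀^Fin 2]→L[ℝ] ℝ) (n : ℕ) {k : ℕ} {F : C3 → ℂ} (h : Hom k F)
    {z e m : C3} (hf : IsFrame z e m) (he : fderiv ℝ F z e = 0) :
    wd A ((kap n h).1 z) e m = ((1 + al k F z)⁻¹) ^ n * (A ![e, J e] + A ![m, J m] +
      A ![e, J e] * (n / k * (1 + al k F z)⁻¹ * ‖fderiv ℝ F z m‖ ^ 2)) := by
  have hem : inner ℝ e m = 0 := by rw [inner_re, hf.en, Complex.zero_re]
  have hem' : inner ℝ (J e) m = 0 := by rw [inner_im, hf.en, Complex.zero_im]
  have k1 : (kap n h).1 z ![e, J e] = ((1 + al k F z)⁻¹) ^ n := by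
    rw [kap_horizontal n h hf.nz hf.ze (inner_J_C hf.ze), inner_J_J, he,
      real_inner_self_eq_norm_sq, hf.ne]
    simp
  have k2 : (kap n h).1 z ![m, J m] = ((1 + al k F z)⁻¹) ^ n +
      (n / k * ((1 + al k F z)⁻¹) ^ (n + 1)) * ‖fderiv ℝ F z m‖ ^ 2 := by
    rw [kap_horizontal n h hf.nz hf.zn (inner_J_C hf.zn), inner_J_J, fderiv_J h,
      real_inner_self_eq_norm_sq, real_inner_self_eq_norm_sq, hf.nn, norm_mul, Complex.norm_I]
    simp
  have k3 : (kap n h).1 z ![e, m] = 0 := by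
    rw [kap_horizontal n h hf.nz hf.ze hf.zn, he, hem']
    simp
  have k4 : (kap n h).1 z ![e, J m] = 0 := by
    rw [kap_horizontal n h hf.nz hf.ze (inner_J_C hf.zn), he, inner_J_J, hem]
    simp
  have k5 : (kap n h).1 z ![J e, J m] = 0 := by
    rw [kap_jinv1 n h hf, k3]
  have k6 : (kap n h).1 z ![J e, m] = 0 := by
    rw [kap_jinv2 n h hf, k4, neg_zero]
  unfold wd
  rw [k1, k2, k3, k4, k5, k6]
  ring

end Pool.Agent.H820.PC
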